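import Mathlib

set_option autoImplicit false

namespace Pool.Agent.H810Z.SC

open MeasureTheory ProbabilityTheory Filter Topology

/-- `S` (only its values at times `t ≥ 0` matter) is a `C_0`-semigroup of bounded operators. -/
structure IsC0Semigroup {X : Type} [NormedAddCommGroup X] [NormedSpace ℝ X]
    (S : ℝ → X →L[ℝ] X) : Prop where
  zero : S 0 = ContinuousLinearMap.id ℝ X
  add : ∀ s t : ℝ, 0 ≤ s → 0 ≤ t → S (s + t) = (S s).comp (S t)
  cont : ∀ x : X, Tendsto (fun t : ℝ => S t x) (𝓝[>] 0) (𝓝 x)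

/-- `W` is a standard real Brownian motion on `[0, T]` with respect to the filtration `F`. -/
structure IsBrownianOn {Ω : Type} {mΩ : MeasurableSpace Ω} (P : Measure Ω) (F : Filtration ℝ mΩ)
    (W : ℝ → Ω → ℝ) (T : ℝ) : Prop where
  adapted : ∀ t ∈ Set.Icc 0 T, @Measurable Ω ℝ (F t) _ (W t)
  zero : ∀ᵐ ω ∂P, W 0 ω = 0
  cont : ∀ᵐ ω ∂P, ContinuousOn (fun t => W t ω) (Set.Icc 0 T)
  law : ∀ s t : ℝ, 0 ≤ s → s ≤ t → t ≤ T →
    P.map (fun ω => W t ω - W s ω) = gaussianReal 0 (t - s).toNNReal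
  indep : ∀ s t : ℝ, 0 ≤ s → s ≤ t → t ≤ T →
    Indep (F s) (MeasurableSpace.comap (fun ω => W t ω - W s ω) inferInstance) P

/-- The data of an adapted step process `1_{(a,b]}(s) 1_A(ω) x` on `[0, t]`, with `A ∈ F_a`. -/
structure StepTerm {Ω : Type} {mΩ : MeasurableSpace Ω} (F : Filtration ℝ mΩ) (X : Type)
    (t : ℝ) where
  a : ℝ
  b : ℝ
  A : Set Ω
  x : X
  ha : 0 ≤ a
  hab : a ≤ b
  hb : b ≤ t
  hA : @MeasurableSet Ω (F a) A

variable {Ω : Type} {mΩ : MeasurableSpace Ω} {F : Filtration ℝ mΩ} {X : Type}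
  [NormedAddCommGroup X] [NormedSpace ℝ X] {t : ℝ}

/-- The process `(ω, s) ↦ 1_A(ω) 1_{(a,b]}(s) x`. -/
noncomputable def StepTerm.process (e : StepTerm F X t) : Ω × ℝ → X :=
  (e.A ×ˢ Set.Ioc e.a e.b).indicator (fun _ => e.x)

/-- Its stochastic integral `1_A (W_b - W_a) x`. -/
noncomputable def StepTerm.integral (e : StepTerm F X t) (W : ℝ → Ω → ℝ) : Ω → X :=
  e.A.indicator (fun ω => (W e.b ω - W e.a ω) • e.x)

/-- `ξ` is the Ito integral of `φ` over `[0, t]`: `φ` is the limit in `L^2(Ω × (0,t]; X)` of finite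
sums of adapted step processes whose stochastic integrals converge to `ξ` in `L^2(Ω; X)`. -/
def IsItoIntegral (P : Measure Ω) (F : Filtration ℝ mΩ) (W : ℝ → Ω → ℝ) (t : ℝ)
    (φ : Ω × ℝ → X) (ξ : Ω → X) : Prop :=
  MemLp φ 2 (P.prod (volume.restrict (Set.Ioc 0 t))) ∧ MemLp ξ 2 P ∧
  ∃ (N : ℕ → ℕ) (e : ∀ n : ℕ, Fin (N n) → StepTerm F X t),
    Tendsto (fun n => eLpNorm (φ - ∑ i, (e n i).process) 2
      (P.prod (volume.restrict (Set.Ioc 0 t)))) atTop (𝓝 0) ∧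
    Tendsto (fun n => eLpNorm (ξ - ∑ i, (e n i).integral W) 2 P) atTop (𝓝 0)

/-- `u` is (a version of) the stochastic convolution of `S` and `g` on `[0, T]`: for every
`t ∈ [0, T]`, `u t` is the Ito integral of `s ↦ S (t - s) (g s)` over `[0, t]`. -/
def IsStochConvolution (P : Measure Ω) (F : Filtration ℝ mΩ) (W : ℝ → Ω → ℝ) (T : ℝ)
    (S : ℝ → X →L[ℝ] X) (g : ℝ → Ω → X) (u : ℝ → Ω → X) : Prop :=
  ∀ t ∈ Set.Icc 0 T, IsItoIntegral P F W t (fun p => S (t - p.2) (g p.2 p.1)) (u t)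

/-- The process `u` has a continuous version on `[0, T]`. -/
def HasContinuousVersion (P : Measure Ω) (T : ℝ) (u : ℝ → Ω → X) : Prop :=
  ∃ v : ℝ → Ω → X, (∀ t ∈ Set.Icc 0 T, v t =ᵐ[P] u t) ∧
    ∀ ω, ContinuousOn (fun t => v t ω) (Set.Icc 0 T)

end Pool.Agent.H810Z.SC
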