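import Mathlib
import Pool.Agent.H810Z.SC.Defs

set_option autoImplicit false

namespace Pool.Agent.H810Z.SC

open Finset Filter Topology

/-- The sequence space. -/
abbrev H : Type := lp (fun _ : ℕ => ℝ) 2

theorem two_toReal : (2 : ENNReal).toReal = 2 := by simp

theorem H_sum_le (p : H) (s : Finset ℕ) : ∑ i ∈ s, p i ^ 2 ≤ ‖p‖ ^ 2 := by
  have h := lp.sum_rpow_le_norm_rpow (p := 2) (by simp) p s
  simpa [two_toReal] using h

theorem H_summable (p : H) : Summable fun i => p i ^ 2 := by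
  have h := (lp.memℓp p).summable (by simp)
  simpa [two_toReal] using h

theorem mem_of_range {f : ℕ → ℝ} {C : ℝ} (h : ∀ N, ∑ i ∈ range N, f i ^ 2 ≤ C) :
    Memℓp f (2 : ENNReal) := by
  refine memℓp_gen ?_
  have : Summable fun i => f i ^ 2 := summable_of_sum_range_le (fun i => sq_nonneg _) h
  simpa [two_toReal] using this

theorem norm_le_of_range (p : H) {C : ℝ} (hC : 0 ≤ C)
    (h : ∀ N, ∑ i ∈ range N, p i ^ 2 ≤ C ^ 2) : ‖p‖ ≤ C := by
  refine lp.norm_le_of_tsum_le (p := 2) (by simp) hC ?_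
  have := Real.tsum_le_of_sum_range_le (f := fun i => p i ^ 2) (fun i => sq_nonneg _) h
  simpa [two_toReal] using this

/-- A bounded operator given by a coordinate formula. -/
noncomputable def mkOp (L : (ℕ → ℝ) →ₗ[ℝ] (ℕ → ℝ)) (C : ℝ) (hC : 0 ≤ C)
    (h : ∀ (p : H) (N : ℕ), ∑ i ∈ range N, L p i ^ 2 ≤ (C * ‖p‖) ^ 2) : H →L[ℝ] H :=
  LinearMap.mkContinuous
    { toFun := fun p => ⟨L p, mem_of_range (h p)⟩
      map_add' := fun p q => lp.ext (by
        change L (⇑(p + q)) = L p + L q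
        rw [lp.coeFn_add, map_add])
      map_smul' := fun c p => lp.ext (by
        change L (⇑(c • p)) = c • L p
        rw [lp.coeFn_smul, map_smul]) } C
    (fun p => norm_le_of_range _ (by positivity) (h p))

theorem mkOp_apply (L : (ℕ → ℝ) →ₗ[ℝ] (ℕ → ℝ)) (C : ℝ) (hC : 0 ≤ C)
    (h : ∀ (p : H) (N : ℕ), ∑ i ∈ range N, L p i ^ 2 ≤ (C * ‖p‖) ^ 2) (p : H) (i : ℕ) :
    mkOp L C hC h p i = L p i := rfl

theorem mkOp_norm (L : (ℕ → ℝ) →ₗ[ℝ] (ℕ → ℝ)) (C : ℝ) (hC : 0 ≤ C)
    (h : ∀ (p : H) (N : ℕ), ∑ i ∈ range N, L p i ^ 2 ≤ (C * ‖p‖) ^ 2) (p : H) :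
    ‖mkOp L C hC h p‖ ≤ C * ‖p‖ := norm_le_of_range _ (by positivity) (h p)

/-- The Toeplitz coefficients. -/
noncomputable def co (m : ℕ) : ℝ := 1 / (m * (Nat.log 2 m + 1))

theorem co_nonneg (m : ℕ) : 0 ≤ co m := by unfold co; positivity

theorem co_not_summable : ¬ Summable co := by
  intro h
  have h1 := (summable_condensed_iff_of_nonneg co_nonneg (fun m n hm hmn => by
    unfold co
    have h1 : (m : ℝ) ≤ n := by exact_mod_cast hmn
    have h2 : (Nat.log 2 m : ℝ) ≤ Nat.log 2 n := by exact_mod_cast Nat.log_mono_right hmn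
    have h3 : (0 : ℝ) < m := by exact_mod_cast hm
    exact one_div_le_one_div_of_le (by positivity) (by gcongr))).mpr h
  refine Real.not_summable_one_div_natCast ((summable_nat_add_iff 1).mp (h1.congr fun k => ?_))
  unfold co
  rw [Nat.log_pow (by norm_num)]
  push_cast
  field_simp

theorem mco_summable : Summable fun m : ℕ => (m : ℝ) * co m ^ 2 := by
  have e : ∀ m : ℕ, (m : ℝ) * co m ^ 2 = 1 / (m * ((Nat.log 2 m : ℝ) + 1) ^ 2) := by
    intro m
    unfold co
    rcases Nat.eq_zero_or_pos m with rfl | hm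
    · simp
    · have h3 : (0 : ℝ) < m := by exact_mod_cast hm
      field_simp
  simp_rw [e]
  refine (summable_condensed_iff_of_nonneg (fun m => by positivity) (fun m n hm hmn => ?_)).mp ?_
  · have h1 : (m : ℝ) ≤ n := by exact_mod_cast hmn
    have h2 : (Nat.log 2 m : ℝ) ≤ Nat.log 2 n := by exact_mod_cast Nat.log_mono_right hmn
    have h3 : (0 : ℝ) < m := by exact_mod_cast hm
    exact one_div_le_one_div_of_le (by positivity) (by gcongr)
  · have h := (summable_nat_add_iff 1).mpr (Real.summable_one_div_nat_pow.mpr (by norm_num : 1 < 2))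
    refine h.congr fun k => ?_
    rw [Nat.log_pow (by norm_num)]
    push_cast
    field_simp

theorem co_sq_summable : Summable fun m : ℕ => co m ^ 2 := by
  refine Summable.of_nonneg_of_le (fun m => sq_nonneg _) (fun m => ?_) mco_summable
  rcases Nat.eq_zero_or_pos m with rfl | hm
  · simp [co]
  · have h3 : (1 : ℝ) ≤ m := by exact_mod_cast hm
    nlinarith [sq_nonneg (co m)]

/-- The Hilbert-Schmidt bound. -/
noncomputable def hs : ℝ := Real.sqrt (∑' m : ℕ, (m : ℝ) * co m ^ 2)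

theorem hs_nonneg : 0 ≤ hs := Real.sqrt_nonneg _

theorem hs_sq : hs ^ 2 = ∑' m : ℕ, (m : ℝ) * co m ^ 2 :=
  Real.sq_sqrt (tsum_nonneg fun m => by positivity)

theorem tele {f : ℕ → ℝ} (h0 : ∀ j, 0 ≤ f j) (h1 : ∀ j, f j ≤ 1) (hf : Antitone f) (m N : ℕ) :
    ∑ j ∈ range N, (f j - f (j + m)) ^ 2 ≤ m := by
  have e1 : ∑ j ∈ range N, (f j - f (j + m)) ^ 2 ≤ ∑ j ∈ range N, (f j - f (j + m)) := by
    refine sum_le_sum fun j _ => ?_
    have a1 : f (j + m) ≤ f j := hf (Nat.le_add_right _ _)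
    have a2 := h0 (j + m)
    have a3 := h1 j
    nlinarith
  have e2 := sum_range_add f N m
  have e3 := sum_range_add f m N
  rw [add_comm m N, e2] at e3
  have e4 : ∑ j ∈ range m, f j ≤ m := by
    calc ∑ j ∈ range m, f j ≤ ∑ _j ∈ range m, (1 : ℝ) := sum_le_sum fun j _ => h1 j
      _ = m := by simp
  have e5 : 0 ≤ ∑ j ∈ range m, f (N + j) := sum_nonneg fun j _ => h0 _
  have e6 : ∑ j ∈ range N, f (j + m) = ∑ j ∈ range N, f (m + j) :=
    sum_congr rfl fun j _ => by rw [add_comm]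
  rw [sum_sub_distrib, e6] at e1
  linarith

/-- The diagonal part. -/
def diagL (f : ℕ → ℝ) : (ℕ → ℝ) →ₗ[ℝ] (ℕ → ℝ) where
  toFun p i := f i * p i
  map_add' p q := by ext i; simp [mul_add]
  map_smul' c p := by ext i; simp [mul_left_comm]

/-- The off-diagonal part. -/
noncomputable def offL (f : ℕ → ℝ) : (ℕ → ℝ) →ₗ[ℝ] (ℕ → ℝ) where
  toFun p i := ∑ j ∈ range (i + 1), co (i - j) * (f j - f i) * p j
  map_add' p q := by ext i; simp [mul_add, sum_add_distrib]
  map_smul' c p := by ext i; simp [mul_sum, mul_left_comm]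

theorem diag_bound {f : ℕ → ℝ} (h0 : ∀ j, 0 ≤ f j) (h1 : ∀ j, f j ≤ 1) (p : H) (N : ℕ) :
    ∑ i ∈ range N, diagL f p i ^ 2 ≤ (1 * ‖p‖) ^ 2 := by
  rw [one_mul]
  refine le_trans (sum_le_sum fun i _ => ?_) (H_sum_le p (range N))
  change (f i * p i) ^ 2 ≤ p i ^ 2
  rw [mul_pow]
  have : f i ^ 2 ≤ 1 := pow_le_one₀ (h0 i) (h1 i)
  nlinarith [sq_nonneg (p i)]

theorem off_bound {f : ℕ → ℝ} (h0 : ∀ j, 0 ≤ f j) (h1 : ∀ j, f j ≤ 1) (hf : Antitone f) (p : H)
    (N : ℕ) : ∑ i ∈ range N, offL f p i ^ 2 ≤ (hs * ‖p‖) ^ 2 := by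
  have e1 : ∀ i, offL f p i ^ 2 ≤
      (∑ j ∈ range (i + 1), co (i - j) ^ 2 * (f j - f (j + (i - j))) ^ 2) * ‖p‖ ^ 2 := by
    intro i
    refine (sum_mul_sq_le_sq_mul_sq (range (i + 1)) (fun j => co (i - j) * (f j - f i))
      (fun j => p j)).trans ?_
    refine mul_le_mul (le_of_eq (sum_congr rfl fun j hj => ?_)) (H_sum_le p _)
      (sum_nonneg fun j _ => sq_nonneg _) (sum_nonneg fun j _ => by positivity)
    have : j + (i - j) = i := by have := mem_range.mp hj; omega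
    rw [this, mul_pow]
  refine (sum_le_sum fun i _ => e1 i).trans ?_
  rw [← sum_mul, mul_pow]
  refine mul_le_mul_of_nonneg_right ?_ (sq_nonneg _)
  rw [sum_range_diag_flip N (fun j m => co m ^ 2 * (f j - f (j + m)) ^ 2), hs_sq]
  calc ∑ j ∈ range N, ∑ m ∈ range (N - j), co m ^ 2 * (f j - f (j + m)) ^ 2
      ≤ ∑ j ∈ range N, ∑ m ∈ range N, co m ^ 2 * (f j - f (j + m)) ^ 2 :=
        sum_le_sum fun j _ => sum_le_sum_of_subset_of_nonneg
          (range_subset_range.mpr (Nat.sub_le _ _)) fun _ _ _ => by positivity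
    _ = ∑ m ∈ range N, co m ^ 2 * ∑ j ∈ range N, (f j - f (j + m)) ^ 2 := by
        rw [sum_comm]
        simp_rw [mul_sum]
    _ ≤ ∑ m ∈ range N, (m : ℝ) * co m ^ 2 := sum_le_sum fun m _ => by
        rw [mul_comm]
        exact mul_le_mul_of_nonneg_right (tele h0 h1 hf m N) (sq_nonneg _)
    _ ≤ ∑' m : ℕ, (m : ℝ) * co m ^ 2 :=
        mco_summable.sum_le_tsum _ fun m _ => by positivity

/-- The Hilbert space of the example. -/
abbrev XX : Type := WithLp 2 (H × H)

/-- The multipliers. -/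
noncomputable def mult (lam : ℕ → ℝ) (t : ℝ) (j : ℕ) : ℝ := Real.exp (-(lam j * max t 0))

variable {lam : ℕ → ℝ}

theorem mult_nonneg (t : ℝ) (j : ℕ) : 0 ≤ mult lam t j := (Real.exp_pos _).le

theorem mult_le (h0 : ∀ j, 0 ≤ lam j) (t : ℝ) (j : ℕ) : mult lam t j ≤ 1 := by
  unfold mult
  rw [Real.exp_le_one_iff, neg_nonpos]
  exact mul_nonneg (h0 j) (le_max_right _ _)

theorem mult_anti (hm : Monotone lam) (t : ℝ) : Antitone (mult lam t) := by
  intro i j hij
  unfold mult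
  exact Real.exp_le_exp.mpr (neg_le_neg (mul_le_mul_of_nonneg_right (hm hij) (le_max_right _ _)))

theorem mult_add {s t : ℝ} (hs : 0 ≤ s) (ht : 0 ≤ t) (j : ℕ) :
    mult lam (s + t) j = mult lam s j * mult lam t j := by
  unfold mult
  rw [max_eq_left hs, max_eq_left ht, max_eq_left (add_nonneg hs ht), ← Real.exp_add]
  congr 1
  ring

theorem mult_zero (j : ℕ) : mult lam 0 j = 1 := by simp [mult]

/-- The diagonal operator. -/
noncomputable def DD (h0 : ∀ j, 0 ≤ lam j) (t : ℝ) : H →L[ℝ] H :=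
  mkOp (diagL (mult lam t)) 1 zero_le_one (diag_bound (mult_nonneg t) (mult_le h0 t))

/-- The off-diagonal operator. -/
noncomputable def YY (h0 : ∀ j, 0 ≤ lam j) (hm : Monotone lam) (t : ℝ) : H →L[ℝ] H :=
  mkOp (offL (mult lam t)) hs hs_nonneg
    (off_bound (mult_nonneg t) (mult_le h0 t) (mult_anti hm t))

/-- The semigroup. -/
noncomputable def SS (h0 : ∀ j, 0 ≤ lam j) (hm : Monotone lam) (t : ℝ) : XX →L[ℝ] XX :=
  ((WithLp.prodContinuousLinearEquiv 2 ℝ H H).symm : H × H →L[ℝ] XX).comp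
    (((DD h0 t).comp (WithLp.fstL 2 ℝ H H)).prod
      ((DD h0 t).comp (WithLp.sndL 2 ℝ H H) + (YY h0 hm t).comp (WithLp.fstL 2 ℝ H H)))

theorem SS_fst (h0 : ∀ j, 0 ≤ lam j) (hm : Monotone lam) (t : ℝ) (x : XX) :
    (SS h0 hm t x).fst = DD h0 t x.fst := rfl

theorem SS_snd (h0 : ∀ j, 0 ≤ lam j) (hm : Monotone lam) (t : ℝ) (x : XX) :
    (SS h0 hm t x).snd = DD h0 t x.snd + YY h0 hm t x.fst := rfl

theorem SS_fst_apply (h0 : ∀ j, 0 ≤ lam j) (hm : Monotone lam) (t : ℝ) (x : XX) (i : ℕ) :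
    (SS h0 hm t x).fst i = mult lam t i * x.fst i := rfl

theorem SS_snd_apply (h0 : ∀ j, 0 ≤ lam j) (hm : Monotone lam) (t : ℝ) (x : XX) (i : ℕ) :
    (SS h0 hm t x).snd i = mult lam t i * x.snd i +
      ∑ j ∈ range (i + 1), co (i - j) * (mult lam t j - mult lam t i) * x.fst j := rfl

theorem XX_ext {x y : XX} (h1 : ∀ i, x.fst i = y.fst i) (h2 : ∀ i, x.snd i = y.snd i) : x = y := by
  apply WithLp.ofLp_injective
  exact Prod.ext (lp.ext (funext h1)) (lp.ext (funext h2))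

theorem XX_norm_le (x : XX) : ‖x‖ ≤ ‖x.fst‖ + ‖x.snd‖ := by
  have h := WithLp.prod_norm_sq_eq_of_L2 x
  have h1 := norm_nonneg x.fst
  have h2 := norm_nonneg x.snd
  exact abs_le_of_sq_le_sq' (by nlinarith) (by positivity) |>.2

theorem SS_norm (h0 : ∀ j, 0 ≤ lam j) (hm : Monotone lam) (t : ℝ) (x : XX) :
    ‖SS h0 hm t x‖ ≤ (2 + hs) * ‖x‖ := by
  have a1 : ‖DD h0 t x.fst‖ ≤ 1 * ‖x.fst‖ := mkOp_norm _ _ _ _ _
  have a2 : ‖DD h0 t x.snd‖ ≤ 1 * ‖x.snd‖ := mkOp_norm _ _ _ _ _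
  have a3 : ‖YY h0 hm t x.fst‖ ≤ hs * ‖x.fst‖ := mkOp_norm _ _ _ _ _
  have a4 := WithLp.norm_fst_le (p := 2) H x
  have a5 := WithLp.norm_snd_le (p := 2) H x
  have a6 := XX_norm_le (SS h0 hm t x)
  rw [SS_fst, SS_snd] at a6
  have a7 := norm_add_le (DD h0 t x.snd) (YY h0 hm t x.fst)
  have a8 := mul_le_mul_of_nonneg_left a4 hs_nonneg
  linarith

/-- The columns of the Toeplitz matrix. -/
noncomputable def col (j : ℕ) : H :=
  ⟨fun i => if j ≤ i then co (i - j) else 0, memℓp_gen (by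
    rw [← summable_nat_add_iff j]
    simpa [two_toReal] using co_sq_summable)⟩

theorem col_apply (j i : ℕ) : col j i = if j ≤ i then co (i - j) else 0 := rfl

theorem col_norm (j : ℕ) : ‖col j‖ ≤ Real.sqrt (∑' m, co m ^ 2) := by
  refine norm_le_of_range _ (Real.sqrt_nonneg _) fun N => ?_
  rw [Real.sq_sqrt (tsum_nonneg fun m => sq_nonneg _)]
  calc ∑ i ∈ range N, col j i ^ 2 ≤ ∑ i ∈ range (j + N), col j i ^ 2 :=
        sum_le_sum_of_subset_of_nonneg (range_subset_range.mpr (Nat.le_add_left _ _))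
          fun _ _ _ => sq_nonneg _
    _ = ∑ m ∈ range N, co m ^ 2 := by
        rw [sum_range_add, sum_eq_zero, zero_add]
        · refine sum_congr rfl fun m _ => ?_
          rw [col_apply, if_pos (Nat.le_add_right _ _), Nat.add_sub_cancel_left]
        · intro i hi
          rw [col_apply, if_neg (not_le.mpr (mem_range.mp hi))]
          simp
    _ ≤ ∑' m, co m ^ 2 := co_sq_summable.sum_le_tsum _ fun m _ => sq_nonneg _

/-- The eigenvectors forming the conditional part of the basis. -/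
noncomputable def xv (j : ℕ) : XX := WithLp.toLp 2 (lp.single 2 j (1 : ℝ), col j)

theorem xv_fst (j i : ℕ) : (xv j).fst i = if i = j then 1 else 0 := by
  change (lp.single 2 j (1 : ℝ) : H) i = _
  rw [lp.single_apply, Pi.single_apply]

theorem xv_snd (j i : ℕ) : (xv j).snd i = if j ≤ i then co (i - j) else 0 := rfl

theorem xv_norm (j : ℕ) : ‖xv j‖ ≤ 1 + Real.sqrt (∑' m, co m ^ 2) := by
  refine (XX_norm_le _).trans (add_le_add (le_of_eq ?_) (col_norm j))
  change ‖(lp.single 2 j (1 : ℝ) : H)‖ = 1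
  rw [lp.norm_single (by norm_num), norm_one]

theorem SS_xv (h0 : ∀ j, 0 ≤ lam j) (hm : Monotone lam) (t : ℝ) (j : ℕ) :
    SS h0 hm t (xv j) = mult lam t j • xv j := by
  refine XX_ext (fun i => ?_) (fun i => ?_)
  · rw [SS_fst_apply]
    change _ = mult lam t j * (xv j).fst i
    rw [xv_fst]
    split_ifs with h
    · rw [h]
    · simp
  · rw [SS_snd_apply]
    change _ = mult lam t j * (xv j).snd i
    simp_rw [xv_fst, xv_snd, mul_ite, mul_one, mul_zero, sum_ite_eq', mem_range, Nat.lt_succ_iff]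
    split_ifs
    · ring
    · simp

/-- The second family of eigenvectors. -/
noncomputable def yv (j : ℕ) (c : ℝ) : XX := WithLp.toLp 2 (0, lp.single 2 j c)

theorem SS_yv (h0 : ∀ j, 0 ≤ lam j) (hm : Monotone lam) (t : ℝ) (j : ℕ) (c : ℝ) :
    SS h0 hm t (yv j c) = mult lam t j • yv j c := by
  refine XX_ext (fun i => ?_) (fun i => ?_)
  · rw [SS_fst_apply]
    change mult lam t i * 0 = mult lam t j * 0
    simp
  · rw [SS_snd_apply]
    change mult lam t i * (lp.single 2 j c : H) i + ∑ k ∈ range (i + 1), _ * 0 =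
      mult lam t j * (lp.single 2 j c : H) i
    rw [lp.single_apply, Pi.single_apply]
    split_ifs with h
    · simp [h]
    · simp

theorem mult_tendsto (j : ℕ) : Tendsto (fun t => mult lam t j) (𝓝[>] 0) (𝓝 1) := by
  have : Continuous fun t => mult lam t j := by unfold mult; fun_prop
  have h := this.tendsto 0
  rw [mult_zero] at h
  exact h.mono_left nhdsWithin_le_nhds

/-- The vectors on which the semigroup is strongly continuous. -/
def good (h0 : ∀ j, 0 ≤ lam j) (hm : Monotone lam) : Submodule ℝ XX where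
  carrier := {x | Tendsto (fun t : ℝ => SS h0 hm t x) (𝓝[>] 0) (𝓝 x)}
  add_mem' {x y} hx hy := by
    have := Tendsto.add hx hy
    simpa [map_add] using this
  zero_mem' := by simp
  smul_mem' c x hx := by
    have := Tendsto.const_smul hx c
    simpa [map_smul] using this

theorem good_closed (h0 : ∀ j, 0 ≤ lam j) (hm : Monotone lam) :
    IsClosed (good h0 hm : Set XX) := by
  refine isClosed_of_closure_subset fun x hx => ?_
  change Tendsto (fun t : ℝ => SS h0 hm t x) (𝓝[>] 0) (𝓝 x)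
  rw [Metric.tendsto_nhds]
  intro ε hε
  have hh := hs_nonneg
  obtain ⟨y, hy, hxy⟩ := Metric.mem_closure_iff.mp hx (ε / (2 * (3 + hs))) (by positivity)
  have hy' : Tendsto (fun t : ℝ => SS h0 hm t y) (𝓝[>] 0) (𝓝 y) := hy
  filter_upwards [Metric.tendsto_nhds.mp hy' (ε / 2) (by positivity)] with t ht
  have a1 := dist_triangle4 (SS h0 hm t x) (SS h0 hm t y) y x
  have a2 : dist (SS h0 hm t x) (SS h0 hm t y) ≤ (2 + hs) * dist x y := by
    rw [dist_eq_norm, dist_eq_norm, ← map_sub]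
    exact SS_norm h0 hm t _
  rw [lt_div_iff₀ (by positivity)] at hxy
  rw [dist_comm y x] at a1
  nlinarith [dist_nonneg (x := x) (y := y)]

theorem good_snd (h0 : ∀ j, 0 ≤ lam j) (hm : Monotone lam) (q : H) :
    (WithLp.toLp 2 (0, q) : XX) ∈ good h0 hm := by
  let ι : H →L[ℝ] XX := ((WithLp.prodContinuousLinearEquiv 2 ℝ H H).symm : H × H →L[ℝ] XX).comp
    (ContinuousLinearMap.inr ℝ H H)
  have h := (lp.hasSum_single (p := 2) (by simp) q).mapL ι
  refine (good_closed h0 hm).mem_of_tendsto h (Eventually.of_forall fun s => ?_)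
  refine Submodule.sum_mem _ fun j _ => ?_
  change Tendsto (fun t : ℝ => SS h0 hm t (yv j (q j))) (𝓝[>] 0) (𝓝 (yv j (q j)))
  simp_rw [SS_yv]
  simpa using (mult_tendsto (lam := lam) j).smul_const (yv j (q j))

theorem good_fst (h0 : ∀ j, 0 ≤ lam j) (hm : Monotone lam) (q : H) :
    (WithLp.toLp 2 (q, 0) : XX) ∈ good h0 hm := by
  let ι : H →L[ℝ] XX := ((WithLp.prodContinuousLinearEquiv 2 ℝ H H).symm : H × H →L[ℝ] XX).comp
    (ContinuousLinearMap.inl ℝ H H)
  have h := (lp.hasSum_single (p := 2) (by simp) q).mapL ι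
  refine (good_closed h0 hm).mem_of_tendsto h (Eventually.of_forall fun s => ?_)
  refine Submodule.sum_mem _ fun j _ => ?_
  have h1 : xv j ∈ good h0 hm := by
    change Tendsto (fun t : ℝ => SS h0 hm t (xv j)) (𝓝[>] 0) (𝓝 (xv j))
    simp_rw [SS_xv]
    simpa using (mult_tendsto (lam := lam) j).smul_const (xv j)
  have h2 := (good h0 hm).smul_mem (q j) ((good h0 hm).sub_mem h1 (good_snd h0 hm (col j)))
  convert h2 using 1
  refine XX_ext (fun i => ?_) (fun i => ?_)
  · change (lp.single 2 j (q j) : H) i = q j * ((lp.single 2 j (1 : ℝ) : H) i - 0)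
    rw [lp.single_apply, lp.single_apply, Pi.single_apply, Pi.single_apply]
    split_ifs <;> simp
  · change (0 : ℝ) = q j * (col j i - col j i)
    simp

theorem SS_C0 (h0 : ∀ j, 0 ≤ lam j) (hm : Monotone lam) : IsC0Semigroup (SS h0 hm) where
  zero := by
    ext1 x
    refine XX_ext (fun i => ?_) (fun i => ?_)
    · rw [SS_fst_apply, mult_zero, one_mul]; rfl
    · rw [SS_snd_apply]
      simp [mult_zero]
  add s t hs ht := by
    ext1 x
    refine XX_ext (fun i => ?_) (fun i => ?_)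
    · rw [ContinuousLinearMap.comp_apply, SS_fst_apply, SS_fst_apply, SS_fst_apply,
        mult_add hs ht, mul_assoc]
    · rw [ContinuousLinearMap.comp_apply, SS_snd_apply, SS_snd_apply, SS_snd_apply]
      simp_rw [SS_fst_apply, mult_add hs ht]
      rw [mul_add, mul_sum, add_assoc, ← sum_add_distrib, mul_assoc]
      congr 1
      refine sum_congr rfl fun j _ => ?_
      ring
  cont x := by
    have h := (good h0 hm).add_mem (good_fst h0 hm x.fst) (good_snd h0 hm x.snd)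
    have e : (WithLp.toLp 2 (x.fst, 0) : XX) + WithLp.toLp 2 (0, x.snd) = x := by
      refine XX_ext (fun i => ?_) (fun i => ?_)
      · change x.fst i + 0 = x.fst i
        simp
      · change 0 + x.snd i = x.snd i
        simp
    rw [e] at h
    exact h

/-- Partial sum operators. -/
noncomputable def PP (R : ℕ) : H →L[ℝ] XX :=
  ∑ l ∈ range R, (lp.evalCLM ℝ (fun _ : ℕ => ℝ) 2 l).smulRight (xv l)

theorem PP_apply (R : ℕ) (β : H) : PP R β = ∑ l ∈ range R, β l • xv l := by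
  unfold PP
  rw [_root_.sum_apply]
  rfl

theorem snd_sum (s : Finset ℕ) (v : ℕ → XX) (i : ℕ) :
    (∑ l ∈ s, v l).snd i = ∑ l ∈ s, (v l).snd i := by
  have h := map_sum (WithLp.sndL 2 ℝ H H) v s
  change (∑ l ∈ s, v l).snd = ∑ l ∈ s, (v l).snd at h
  rw [h, lp.coeFn_sum, Finset.sum_apply]

theorem exists_beta : ∃ β : ℕ → ℝ, Summable (fun l => β l ^ 2) ∧
    ∀ C : ℝ, ∃ R, C < ‖∑ l ∈ range R, β l • xv l‖ := by
  by_contra hc
  push Not at hc
  obtain ⟨C, hC⟩ := banach_steinhaus (g := PP) fun β => by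
    obtain ⟨C, hC⟩ := hc β (H_summable β)
    exact ⟨C, fun R => by rw [PP_apply]; exact hC R⟩
  have hC0 : 0 ≤ C := (norm_nonneg _).trans (hC 0)
  have hdiv := (not_summable_iff_tendsto_nat_atTop_of_nonneg co_nonneg).mp co_not_summable
  obtain ⟨n, hn⟩ := (hdiv.eventually_gt_atTop (2 * C)).exists_forall_of_atTop
  set R := 2 * n + 2 with hR
  have hb : ∀ N, ∑ i ∈ range N, (if i < R then (1 : ℝ) else 0) ^ 2 ≤ R := by
    intro N
    calc ∑ i ∈ range N, (if i < R then (1 : ℝ) else 0) ^ 2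
        = ∑ i ∈ range N, (if i ∈ range R then (1 : ℝ) else 0) :=
          sum_congr rfl fun i _ => by simp
      _ = ((range N ∩ range R).card : ℝ) := by rw [sum_ite_mem]; simp
      _ ≤ ((range R).card : ℝ) := by exact_mod_cast card_le_card inter_subset_right
      _ = R := by simp
  let e : H := ⟨fun i => if i < R then 1 else 0, mem_of_range hb⟩
  have he : ∀ i, e i = if i < R then 1 else 0 := fun i => rfl
  have hen : ‖e‖ ≤ Real.sqrt R := by
    refine norm_le_of_range _ (Real.sqrt_nonneg _) fun N => ?_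
    rw [Real.sq_sqrt (by positivity)]
    exact hb N
  have h1 : ‖(PP R e).snd‖ ≤ C * Real.sqrt R :=
    (WithLp.norm_snd_le (p := 2) H _).trans (((PP R).le_opNorm e).trans
      (mul_le_mul (hC R) hen (norm_nonneg _) hC0))
  have h2 : ∀ i ∈ Ico n R, (2 * C) ^ 2 < (PP R e).snd i ^ 2 := by
    intro i hi
    obtain ⟨hi1, hi2⟩ := mem_Ico.mp hi
    have a1 : (PP R e).snd i = ∑ m ∈ range (i + 1), co m := by
      rw [PP_apply, snd_sum, ← sum_range_reflect co (i + 1)]
      symm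
      refine sum_subset_zero_on_sdiff (range_subset_range.mpr hi2) (fun l hl => ?_)
        (fun l hl => ?_)
      · change e l * (xv l).snd i = 0
        have := (mem_sdiff.mp hl).2
        rw [mem_range] at this
        rw [xv_snd, if_neg (by omega), mul_zero]
      · change _ = e l * (xv l).snd i
        have := mem_range.mp hl
        rw [xv_snd, if_pos (by omega), he, if_pos (by omega), one_mul]
        congr 1
    rw [a1]
    exact pow_lt_pow_left₀ (hn (i + 1) (by omega)) (by positivity) (by norm_num)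
  have h3 := sum_lt_sum_of_nonempty (s := Ico n R) ⟨n, mem_Ico.mpr ⟨le_rfl, by omega⟩⟩ h2
  have h4 := H_sum_le (PP R e).snd (Ico n R)
  have h5 : ‖(PP R e).snd‖ ^ 2 ≤ C ^ 2 * R := by
    have := pow_le_pow_left₀ (norm_nonneg _) h1 2
    rwa [mul_pow, Real.sq_sqrt (by positivity)] at this
  rw [sum_const, Nat.card_Ico, nsmul_eq_mul] at h3
  have h6 : ((R - n : ℕ) : ℝ) = n + 2 := by
    have : R - n = n + 2 := by omega
    rw [this]; push_cast; ring
  have h7 : (R : ℝ) = 2 * n + 2 := by rw [hR]; push_cast; ring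
  rw [h6] at h3
  rw [h7] at h5
  have h8 : (0 : ℝ) ≤ n := by positivity
  nlinarith [sq_nonneg C]

theorem exists_semigroup (lam : ℕ → ℝ) (h0 : ∀ j, 0 ≤ lam j) (hm : Monotone lam) :
    ∃ (S : ℝ → XX →L[ℝ] XX) (x : ℕ → XX) (β : ℕ → ℝ) (C : ℝ), IsC0Semigroup S ∧
      (∀ l t, 0 ≤ t → S t (x l) = Real.exp (-(lam l * t)) • x l) ∧ (∀ l, ‖x l‖ ≤ C) ∧
      Summable (fun l => β l ^ 2) ∧ ∀ B : ℝ, ∃ R, B < ‖∑ l ∈ range R, β l • x l‖ := by
  obtain ⟨β, h1, h2⟩ := exists_beta
  refine ⟨SS h0 hm, xv, β, _, SS_C0 h0 hm, fun l t ht => ?_, xv_norm, h1, h2⟩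
  rw [SS_xv, mult, max_eq_left ht]

end Pool.Agent.H810Z.SC
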