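import Mathlib
import Pool.Agent.H810Z.SC.Defs

set_option autoImplicit false
set_option linter.unusedSectionVars false

namespace Pool.Agent.H810Z.SC

open MeasureTheory ProbabilityTheory Filter Topology Finset
open scoped RealInnerProductSpace

theorem sq_sum {α ι X : Type} [MeasurableSpace α] [NormedAddCommGroup X] [InnerProductSpace ℝ X]
    (ν : Measure α) (s : Finset ι) (ξ : ι → α → ℝ) (hξ : ∀ i ∈ s, MemLp (ξ i) 2 ν) (x : ι → X) :
    ∫ a, ‖∑ i ∈ s, ξ i a • x i‖ ^ 2 ∂ν =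
      ∑ i ∈ s, ∑ j ∈ s, ⟪x i, x j⟫ * ∫ a, ξ i a * ξ j a ∂ν := by
  have h1 : ∀ a, ‖∑ i ∈ s, ξ i a • x i‖ ^ 2 =
      ∑ i ∈ s, ∑ j ∈ s, ⟪x i, x j⟫ * (ξ i a * ξ j a) := by
    intro a
    rw [← real_inner_self_eq_norm_sq, sum_inner]
    refine sum_congr rfl fun i _ => ?_
    rw [inner_sum]
    refine sum_congr rfl fun j _ => ?_
    rw [real_inner_smul_left, real_inner_smul_right]
    ring
  have h2 : ∀ i ∈ s, ∀ j ∈ s, Integrable (fun a => ⟪x i, x j⟫ * (ξ i a * ξ j a)) ν :=
    fun i hi j hj => ((hξ i hi).integrable_mul (hξ j hj)).const_mul _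
  simp_rw [h1]
  rw [integral_finsetSum _ fun i hi => integrable_finsetSum _ fun j hj => h2 i hi j hj]
  refine sum_congr rfl fun i hi => ?_
  rw [integral_finsetSum _ fun j hj => h2 i hi j hj]
  refine sum_congr rfl fun j _ => ?_
  rw [integral_const_mul]

theorem memLp_smul_const {α X : Type} [MeasurableSpace α] [NormedAddCommGroup X]
    [NormedSpace ℝ X] {ν : Measure α} {ξ : α → ℝ} (h : MemLp ξ 2 ν) (x : X) :
    MemLp (fun a => ξ a • x) 2 ν :=
  (ContinuousLinearMap.toSpanSingleton ℝ x).comp_memLp' h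

variable {Ω : Type} {mΩ : MeasurableSpace Ω} {P : Measure Ω} [IsProbabilityMeasure P]
  {F : Filtration ℝ mΩ} {W : ℝ → Ω → ℝ} {T : ℝ}

theorem IsBrownianOn.meas_le (hW : IsBrownianOn P F W T) {s t : ℝ} (h0 : 0 ≤ s) (hst : s ≤ t)
    (hT : s ≤ T) : Measurable[F t] (W s) :=
  (hW.adapted s ⟨h0, hT⟩).mono (F.mono hst) le_rfl

theorem IsBrownianOn.meas (hW : IsBrownianOn P F W T) {s : ℝ} (h0 : 0 ≤ s) (hT : s ≤ T) :
    Measurable (W s) :=
  (hW.adapted s ⟨h0, hT⟩).mono (F.le s) le_rfl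

theorem IsBrownianOn.inc_meas (hW : IsBrownianOn P F W T) {s t : ℝ} (h0 : 0 ≤ s) (hst : s ≤ t)
    (hT : t ≤ T) : Measurable (fun ω => W t ω - W s ω) :=
  (hW.meas (h0.trans hst) hT).sub (hW.meas h0 (hst.trans hT))

theorem IsBrownianOn.inc_meas_le (hW : IsBrownianOn P F W T) {s t u : ℝ} (h0 : 0 ≤ s)
    (hst : s ≤ t) (hT : t ≤ T) (hu : t ≤ u) : Measurable[F u] (fun ω => W t ω - W s ω) :=
  (hW.meas_le (h0.trans hst) hu hT).sub (hW.meas_le h0 (hst.trans hu) (hst.trans hT))

theorem IsBrownianOn.inc_memLp (hW : IsBrownianOn P F W T) {s t : ℝ} (h0 : 0 ≤ s) (hst : s ≤ t)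
    (hT : t ≤ T) : MemLp (fun ω => W t ω - W s ω) 2 P := by
  have h := memLp_id_gaussianReal' (μ := 0) (v := (t - s).toNNReal) 2 (by simp)
  rw [← hW.law s t h0 hst hT, memLp_map_measure_iff aestronglyMeasurable_id
    (hW.inc_meas h0 hst hT).aemeasurable] at h
  exact h

theorem IsBrownianOn.indep_mul (hW : IsBrownianOn P F W T) {s t : ℝ} (h0 : 0 ≤ s) (hst : s ≤ t)
    (hT : t ≤ T) {η : Ω → ℝ} (hη : Measurable[F s] η) (hηi : Integrable η P) {f : ℝ → ℝ}
    (hf : Measurable f) (hfi : Integrable f (gaussianReal 0 (t - s).toNNReal)) :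
    Integrable (fun ω => η ω * f (W t ω - W s ω)) P ∧
      ∫ ω, η ω * f (W t ω - W s ω) ∂P =
        (∫ ω, η ω ∂P) * ∫ y, f y ∂(gaussianReal 0 (t - s).toNNReal) := by
  have hm := hW.inc_meas h0 hst hT
  have h1 : IndepFun η (fun ω => W t ω - W s ω) P := by
    rw [IndepFun_iff_Indep]
    exact indep_of_indep_of_le_left (hW.indep s t h0 hst hT) hη.comap_le
  have h2 : IndepFun η (fun ω => f (W t ω - W s ω)) P := h1.comp measurable_id hf
  have h3 : Integrable (fun ω => f (W t ω - W s ω)) P := by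
    rw [← hW.law s t h0 hst hT, integrable_map_measure hf.aestronglyMeasurable
      hm.aemeasurable] at hfi
    exact hfi
  refine ⟨h2.integrable_mul hηi h3, ?_⟩
  rw [h2.integral_fun_mul_eq_mul_integral hηi.aestronglyMeasurable h3.aestronglyMeasurable,
    ← hW.law s t h0 hst hT, integral_map hm.aemeasurable hf.aestronglyMeasurable]

theorem gauss_int_id (v : NNReal) : Integrable (fun y : ℝ => y) (gaussianReal 0 v) :=
  (memLp_id_gaussianReal' (μ := 0) (v := v) 1 (by simp)).integrable le_rfl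

theorem gauss_int_sq (v : NNReal) : Integrable (fun y : ℝ => y ^ 2) (gaussianReal 0 v) :=
  (memLp_two_iff_integrable_sq aestronglyMeasurable_id).mp
    (memLp_id_gaussianReal' (μ := 0) (v := v) 2 (by simp))

theorem gauss_sq (v : NNReal) : ∫ y, y ^ 2 ∂(gaussianReal 0 v) = v := by
  have h := variance_id_gaussianReal (μ := 0) (v := v)
  rw [variance_eq_integral measurable_id.aemeasurable] at h
  simpa [integral_id_gaussianReal] using h

theorem IsBrownianOn.mul_zero (hW : IsBrownianOn P F W T) {s t : ℝ} (h0 : 0 ≤ s) (hst : s ≤ t)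
    (hT : t ≤ T) {η : Ω → ℝ} (hη : Measurable[F s] η) (hηi : Integrable η P) :
    Integrable (fun ω => η ω * (W t ω - W s ω)) P ∧ ∫ ω, η ω * (W t ω - W s ω) ∂P = 0 := by
  have h := hW.indep_mul h0 hst hT hη hηi (f := fun y => y) measurable_id (gauss_int_id _)
  rw [integral_id_gaussianReal, MulZeroClass.mul_zero] at h
  exact h

theorem IsBrownianOn.cross1 (hW : IsBrownianOn P F W T) {c u v : ℝ} (h0 : 0 ≤ c) (hcu : c ≤ u)
    (huv : u ≤ v) (hT : v ≤ T) {C : Set Ω} (hC : MeasurableSet[F c] C) :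
    ∫ ω, C.indicator (fun _ => (1 : ℝ)) ω * ((W u ω - W c ω) * (W v ω - W c ω)) ∂P =
      P.real C * (u - c) := by
  have hη : Measurable[F c] (C.indicator (fun _ => (1 : ℝ))) := measurable_const.indicator hC
  have hηi : Integrable (C.indicator (fun _ => (1 : ℝ))) P :=
    (integrable_const _).indicator (F.le c _ hC)
  have h1 := hW.indep_mul h0 hcu (huv.trans hT) hη hηi (f := fun y => y ^ 2) (by fun_prop)
    (gauss_int_sq _)
  have h2 := hW.mul_zero (h0.trans hcu) huv hT
    (η := fun ω => C.indicator (fun _ => (1 : ℝ)) ω * (W u ω - W c ω))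
    ((hη.mono (F.mono hcu) le_rfl).mul (hW.inc_meas_le h0 hcu (huv.trans hT) le_rfl))
    (hW.mul_zero h0 hcu (huv.trans hT) hη hηi).1
  have h3 : ∀ ω, C.indicator (fun _ => (1 : ℝ)) ω * ((W u ω - W c ω) * (W v ω - W c ω)) =
      C.indicator (fun _ => (1 : ℝ)) ω * (W u ω - W c ω) ^ 2 +
        C.indicator (fun _ => (1 : ℝ)) ω * (W u ω - W c ω) * (W v ω - W u ω) := fun ω => by ring
  simp_rw [h3]
  rw [integral_add h1.1 h2.1, h1.2, h2.2, gauss_sq, integral_indicator_const _ (F.le c _ hC),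
    Real.coe_toNNReal _ (sub_nonneg.mpr hcu)]
  simp

theorem IsBrownianOn.cross2 (hW : IsBrownianOn P F W T) {a b a' b' : ℝ} (h0 : 0 ≤ a)
    (hab : a ≤ b) (hb : b ≤ T) (haa : a ≤ a') (hab' : a' ≤ b') (hb' : b' ≤ T) {C : Set Ω}
    (hC : MeasurableSet[F a'] C) :
    ∫ ω, C.indicator (fun _ => (1 : ℝ)) ω * ((W b ω - W a ω) * (W b' ω - W a' ω)) ∂P =
      P.real C * volume.real (Set.Ioc a b ∩ Set.Ioc a' b') := by
  have hη : Measurable[F a'] (C.indicator (fun _ => (1 : ℝ))) := measurable_const.indicator hC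
  have h0' := h0.trans haa
  have key : ∀ d, a ≤ d → d ≤ a' → Integrable (fun ω => C.indicator (fun _ => (1 : ℝ)) ω *
      (W d ω - W a ω) * (W b' ω - W a' ω)) P ∧ ∫ ω, C.indicator (fun _ => (1 : ℝ)) ω *
      (W d ω - W a ω) * (W b' ω - W a' ω) ∂P = 0 := by
    intro d h1 h2
    refine hW.mul_zero h0' hab' hb' (hη.mul (hW.inc_meas_le h0 h1 (h2.trans (hab'.trans hb')) h2))
      ?_
    have := ((hW.inc_memLp h0 h1 (h2.trans (hab'.trans hb'))).integrable
      (by norm_num)).indicator (F.le a' _ hC)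
    refine this.congr (Eventually.of_forall fun ω => ?_)
    by_cases hω : ω ∈ C <;> simp [hω]
  rw [Set.Ioc_inter_Ioc, Real.volume_real_Ioc, max_eq_right haa]
  by_cases hba : b ≤ a'
  · have h1 := (key b hab hba).2
    simp_rw [mul_assoc] at h1
    rw [h1, max_eq_right (by have := min_le_left b b'; linarith), MulZeroClass.mul_zero]
  push Not at hba
  have h1 := key a' haa le_rfl
  have h2 : Integrable (fun ω => C.indicator (fun _ => (1 : ℝ)) ω *
      ((W b ω - W a' ω) * (W b' ω - W a' ω))) P := by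
    have := ((hW.inc_memLp h0' hba.le hb).integrable_mul
      (hW.inc_memLp h0' hab' hb')).indicator (F.le a' _ hC)
    refine this.congr (Eventually.of_forall fun ω => ?_)
    by_cases hω : ω ∈ C <;> simp [hω]
  have h3 : ∀ ω, C.indicator (fun _ => (1 : ℝ)) ω * ((W b ω - W a ω) * (W b' ω - W a' ω)) =
      C.indicator (fun _ => (1 : ℝ)) ω * (W a' ω - W a ω) * (W b' ω - W a' ω) +
        C.indicator (fun _ => (1 : ℝ)) ω * ((W b ω - W a' ω) * (W b' ω - W a' ω)) :=
    fun ω => by ring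
  simp_rw [h3]
  rw [integral_add h1.1 h2, h1.2, zero_add]
  rcases le_total b b' with h | h
  · rw [hW.cross1 h0' hba.le h hb' hC, min_eq_left h, max_eq_left (by linarith)]
  · simp_rw [mul_comm (W b _ - W a' _)]
    rw [hW.cross1 h0' hab' h hb hC, min_eq_right h, max_eq_left (by linarith)]

variable {X : Type} [NormedAddCommGroup X] [InnerProductSpace ℝ X] {t : ℝ}

/-- The scalar part of the integral. -/
noncomputable def StepTerm.si (e : StepTerm F X t) (W : ℝ → Ω → ℝ) (ω : Ω) : ℝ :=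
  e.A.indicator (fun ω => W e.b ω - W e.a ω) ω

/-- The scalar part of the process. -/
noncomputable def StepTerm.sp (e : StepTerm F X t) (p : Ω × ℝ) : ℝ :=
  (e.A ×ˢ Set.Ioc e.a e.b).indicator (fun _ => (1 : ℝ)) p

omit [IsProbabilityMeasure P] in
theorem StepTerm.integral_eq (e : StepTerm F X t) (ω : Ω) :
    e.integral W ω = e.si W ω • e.x := by
  unfold StepTerm.integral StepTerm.si
  by_cases h : ω ∈ e.A <;> simp [h]

theorem StepTerm.process_eq (e : StepTerm F X t) (p : Ω × ℝ) : e.process p = e.sp p • e.x := by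
  unfold StepTerm.process StepTerm.sp
  by_cases h : p ∈ e.A ×ˢ Set.Ioc e.a e.b <;> simp [h]

theorem StepTerm.si_memLp (hW : IsBrownianOn P F W T) (ht : t ≤ T) (e : StepTerm F X t) :
    MemLp (e.si W) 2 P :=
  (hW.inc_memLp e.ha e.hab (e.hb.trans ht)).indicator (F.le _ _ e.hA)

theorem StepTerm.sp_memLp (e : StepTerm F X t) :
    MemLp e.sp 2 (P.prod (volume.restrict (Set.Ioc 0 t))) :=
  (memLp_const _).indicator ((F.le _ _ e.hA).prod measurableSet_Ioc)

theorem StepTerm.cross (hW : IsBrownianOn P F W T) (ht : t ≤ T) (e e' : StepTerm F X t) :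
    ∫ ω, e.si W ω * e'.si W ω ∂P =
      ∫ p, e.sp p * e'.sp p ∂(P.prod (volume.restrict (Set.Ioc 0 t))) := by
  have hR : ∫ p, e.sp p * e'.sp p ∂(P.prod (volume.restrict (Set.Ioc 0 t))) =
      P.real (e.A ∩ e'.A) * volume.real (Set.Ioc e.a e.b ∩ Set.Ioc e'.a e'.b) := by
    have h1 : ∀ p, e.sp p * e'.sp p = ((e.A ∩ e'.A) ×ˢ
        (Set.Ioc e.a e.b ∩ Set.Ioc e'.a e'.b)).indicator (fun _ => (1 : ℝ)) p := by
      intro p
      unfold StepTerm.sp
      rw [← Set.prod_inter_prod, ← Set.inter_indicator_mul]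
      simp
    simp_rw [h1]
    rw [integral_indicator_const _ (((F.le _ _ e.hA).inter (F.le _ _ e'.hA)).prod
      (measurableSet_Ioc.inter measurableSet_Ioc)), smul_eq_mul, mul_one, measureReal_def,
      Measure.prod_prod, Measure.restrict_apply (measurableSet_Ioc.inter measurableSet_Ioc),
      Set.inter_eq_left.mpr (Set.inter_subset_left.trans (Set.Ioc_subset_Ioc e.ha e.hb)),
      ENNReal.toReal_mul]
    rfl
  have hL : ∀ ω, e.si W ω * e'.si W ω = (e.A ∩ e'.A).indicator (fun _ => (1 : ℝ)) ω *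
      ((W e.b ω - W e.a ω) * (W e'.b ω - W e'.a ω)) := by
    intro ω
    unfold StepTerm.si
    by_cases h : ω ∈ e.A <;> by_cases h' : ω ∈ e'.A <;> simp [h, h']
  rw [hR]
  simp_rw [hL]
  rcases le_total e.a e'.a with h | h
  · exact hW.cross2 e.ha e.hab (e.hb.trans ht) h e'.hab (e'.hb.trans ht)
      ((F.mono h _ e.hA).inter e'.hA)
  · simp_rw [mul_comm (W e.b _ - W e.a _)]
    rw [Set.inter_comm (Set.Ioc e.a e.b)]
    exact hW.cross2 e'.ha e'.hab (e'.hb.trans ht) h e.hab (e.hb.trans ht)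
      (e.hA.inter (F.mono h _ e'.hA))

theorem integral_memLp (hW : IsBrownianOn P F W T) (ht : t ≤ T) {ι : Type} [Fintype ι]
    (e : ι → StepTerm F X t) : MemLp (∑ i, (e i).integral W) 2 P := by
  refine memLp_finsetSum' _ fun i _ => ?_
  have : (e i).integral W = fun ω => (e i).si W ω • (e i).x := funext fun ω => (e i).integral_eq ω
  rw [this]
  exact memLp_smul_const ((e i).si_memLp hW ht) _

theorem process_memLp {ι : Type} [Fintype ι] (e : ι → StepTerm F X t) :
    MemLp (∑ i, (e i).process) 2 (P.prod (volume.restrict (Set.Ioc 0 t))) := by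
  refine memLp_finsetSum' _ fun i _ => ?_
  have : (e i).process = fun p => (e i).sp p • (e i).x := funext fun p => (e i).process_eq p
  rw [this]
  exact memLp_smul_const (e i).sp_memLp _

theorem isometry (hW : IsBrownianOn P F W T) (ht : t ≤ T) {ι : Type} [Fintype ι]
    (e : ι → StepTerm F X t) : eLpNorm (∑ i, (e i).integral W) 2 P =
      eLpNorm (∑ i, (e i).process) 2 (P.prod (volume.restrict (Set.Ioc 0 t))) := by
  rw [(integral_memLp hW ht e).eLpNorm_eq_integral_rpow_norm (by norm_num) (by simp),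
    (process_memLp e).eLpNorm_eq_integral_rpow_norm (by norm_num) (by simp)]
  congr 2
  have h1 := sq_sum P univ (fun i => (e i).si W) (fun i _ => (e i).si_memLp hW ht)
    (fun i => (e i).x)
  have h2 := sq_sum (P.prod (volume.restrict (Set.Ioc 0 t))) univ (fun i => (e i).sp)
    (fun i _ => (e i).sp_memLp) (fun i => (e i).x)
  simp only [Finset.sum_apply, StepTerm.integral_eq, StepTerm.process_eq, ENNReal.toReal_ofNat,
    Real.rpow_ofNat]
  rw [h1, h2]
  simp_rw [StepTerm.cross hW ht]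

/-- The negative of a step term. -/
def StepTerm.neg (e : StepTerm F X t) : StepTerm F X t := { e with x := -e.x }

theorem isometry_sub (hW : IsBrownianOn P F W T) (ht : t ≤ T) {ι κ : Type} [Fintype ι]
    [Fintype κ] (e : ι → StepTerm F X t) (e' : κ → StepTerm F X t) :
    eLpNorm (∑ i, (e i).integral W - ∑ i, (e' i).integral W) 2 P =
      eLpNorm (∑ i, (e i).process - ∑ i, (e' i).process) 2
        (P.prod (volume.restrict (Set.Ioc 0 t))) := by
  have h := isometry hW ht (Sum.elim e (fun i => (e' i).neg) : ι ⊕ κ → StepTerm F X t)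
  rw [Fintype.sum_sum_type, Fintype.sum_sum_type] at h
  have a1 : ∀ i, (e' i).neg.integral W = -(e' i).integral W := by
    intro i
    funext ω
    rw [Pi.neg_apply, StepTerm.integral_eq, StepTerm.integral_eq, ← smul_neg]
    rfl
  have a2 : ∀ i, (e' i).neg.process = -(e' i).process := by
    intro i
    funext ω
    rw [Pi.neg_apply, StepTerm.process_eq, StepTerm.process_eq, ← smul_neg]
    rfl
  simp only [Sum.elim_inl, Sum.elim_inr, a1, a2, sum_neg_distrib, ← sub_eq_add_neg] at h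
  exact h

theorem exists_ito [CompleteSpace X] (hW : IsBrownianOn P F W T) (ht : t ≤ T) {ι : ℕ → Type}
    [∀ n, Fintype (ι n)] (e : ∀ n, ι n → StepTerm F X t) {φ : Ω × ℝ → X}
    (hφ : MemLp φ 2 (P.prod (volume.restrict (Set.Ioc 0 t))))
    (he : Tendsto (fun n => eLpNorm (φ - ∑ i, (e n i).process) 2
      (P.prod (volume.restrict (Set.Ioc 0 t)))) atTop (𝓝 0)) :
    ∃ ξ, IsItoIntegral P F W t φ ξ := by
  have h1 : Tendsto (fun n => (process_memLp (P := P) (e n)).toLp _) atTop (𝓝 (hφ.toLp φ)) := by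
    rw [Lp.tendsto_Lp_iff_tendsto_eLpNorm'']
    simpa only [eLpNorm_sub_comm φ] using he
  have h2 : CauchySeq (fun n => (integral_memLp hW ht (e n)).toLp _) := by
    have h3 := h1.cauchySeq
    rw [EMetric.cauchySeq_iff] at h3 ⊢
    intro ε hε
    obtain ⟨N, hN⟩ := h3 ε hε
    refine ⟨N, fun m hm n hn => ?_⟩
    have h4 := hN m hm n hn
    rw [Lp.edist_toLp_toLp] at h4 ⊢
    rwa [isometry_sub hW ht]
  obtain ⟨ξ, hξ⟩ := cauchySeq_tendsto_of_complete h2
  refine ⟨ξ, hφ, Lp.memLp ξ, fun n => Fintype.card (ι n),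
    fun n i => e n ((Fintype.equivFin (ι n)).symm i), ?_, ?_⟩
  · refine he.congr fun n => ?_
    rw [Equiv.sum_comp (Fintype.equivFin (ι n)).symm (fun i => (e n i).process)]
  · rw [← Lp.toLp_coeFn ξ (Lp.memLp ξ), Lp.tendsto_Lp_iff_tendsto_eLpNorm''] at hξ
    refine hξ.congr fun n => ?_
    rw [Equiv.sum_comp (Fintype.equivFin (ι n)).symm (fun i => (e n i).integral W),
      eLpNorm_sub_comm]

theorem ito_tendsto (hW : IsBrownianOn P F W T) (ht : t ≤ T) {ι : ℕ → Type}
    [∀ n, Fintype (ι n)] (e : ∀ n, ι n → StepTerm F X t) {φ : Ω × ℝ → X} {ξ : Ω → X}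
    (hξ : IsItoIntegral P F W t φ ξ)
    (he : Tendsto (fun n => eLpNorm (φ - ∑ i, (e n i).process) 2
      (P.prod (volume.restrict (Set.Ioc 0 t)))) atTop (𝓝 0)) :
    Tendsto (fun n => eLpNorm (ξ - ∑ i, (e n i).integral W) 2 P) atTop (𝓝 0) := by
  obtain ⟨hφ, hξ, N, d, h1, h2⟩ := hξ
  have h3 := (h2.add (h1.add he))
  simp only [add_zero] at h3
  refine tendsto_of_tendsto_of_tendsto_of_le_of_le tendsto_const_nhds h3 (fun _ => zero_le)
    fun n => ?_
  have m1 := integral_memLp hW ht (d n)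
  have m2 := integral_memLp hW ht (e n)
  have m3 := process_memLp (P := P) (d n)
  have m4 := process_memLp (P := P) (e n)
  have e1 : ξ - ∑ i, (e n i).integral W = (ξ - ∑ i, (d n i).integral W) +
      (∑ i, (d n i).integral W - ∑ i, (e n i).integral W) := by abel
  have e2 : ∑ i, (d n i).process - ∑ i, (e n i).process =
      (∑ i, (d n i).process - φ) + (φ - ∑ i, (e n i).process) := by abel
  dsimp only
  rw [e1]
  refine (eLpNorm_add_le (hξ.sub m1).1 (m1.sub m2).1 (by norm_num)).trans (add_le_add le_rfl ?_)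
  rw [isometry_sub hW ht, e2]
  refine (eLpNorm_add_le (m3.sub hφ).1 (hφ.sub m4).1 (by norm_num)).trans (add_le_add ?_ le_rfl)
  rw [eLpNorm_sub_comm]

theorem ito_local (hW : IsBrownianOn P F W T) (ht : t ≤ T) {ι : ℕ → Type}
    [∀ n, Fintype (ι n)] (e : ∀ n, ι n → StepTerm F X t) {φ : Ω × ℝ → X} {ξ : Ω → X}
    (hξ : IsItoIntegral P F W t φ ξ)
    (he : Tendsto (fun n => eLpNorm (φ - ∑ i, (e n i).process) 2
      (P.prod (volume.restrict (Set.Ioc 0 t)))) atTop (𝓝 0)) {A : Set Ω} (hA : MeasurableSet A)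
    (n0 : ℕ) (hloc : ∀ n ≥ n0, ∀ ω ∈ A,
      (∑ i, (e n i).integral W) ω = (∑ i, (e n0 i).integral W) ω) :
    ∀ᵐ ω ∂P, ω ∈ A → ξ ω = (∑ i, (e n0 i).integral W) ω := by
  have h1 := ito_tendsto hW ht e hξ he
  have h2 : eLpNorm (A.indicator (ξ - ∑ i, (e n0 i).integral W)) 2 P = 0 := by
    refine le_antisymm (ge_of_tendsto h1 ?_) zero_le
    filter_upwards [eventually_ge_atTop n0] with n hn
    have : A.indicator (ξ - ∑ i, (e n0 i).integral W) =
        A.indicator (ξ - ∑ i, (e n i).integral W) := by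
      refine Set.indicator_congr fun ω hω => ?_
      rw [Pi.sub_apply, Pi.sub_apply, hloc n hn ω hω]
    rw [this]
    exact eLpNorm_indicator_le _
  rw [eLpNorm_eq_zero_iff ((hξ.2.1.sub (integral_memLp hW ht (e n0))).1.indicator hA)
    (by norm_num)] at h2
  filter_upwards [h2] with ω hω hωA
  rw [Set.indicator_of_mem hωA, Pi.sub_apply, Pi.zero_apply, sub_eq_zero] at hω
  exact hω

end Pool.Agent.H810Z.SC
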