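import Mathlib
import Pool.Agent.H810Z.SC.Ito

set_option autoImplicit false
set_option linter.unusedSectionVars false

namespace Pool.Agent.H810Z.SC

open MeasureTheory ProbabilityTheory Filter Topology Finset

/-- Waiting times. -/
noncomputable def ww (T : ℝ) (l : ℕ) : ℝ := T / 3 / 2 ^ (l * l)

/-- Rates. -/
noncomputable def lam (T : ℝ) (l : ℕ) : ℝ := 2 ^ l / ww T l

/-- The random starting times. -/
noncomputable def aa {Ω : Type} (T : ℝ) (W : ℝ → Ω → ℝ) : ℕ → Ω → ℝ
  | 0 => fun _ => 0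
  | l + 1 => fun ω => aa T W l ω + ww T (l + 1) +
      if 0 ≤ W (aa T W l ω + ww T (l + 1)) ω - W (aa T W l ω) ω then 0 else ww T l

/-- The finite sets of possible values. -/
noncomputable def RR (T : ℝ) : ℕ → Finset ℝ
  | 0 => {0}
  | l + 1 => (RR T l).image (fun r => r + ww T (l + 1) + 0) ∪
      (RR T l).image (fun r => r + ww T (l + 1) + ww T l)

variable {T : ℝ}

theorem ww_pos (hT : 0 < T) (l : ℕ) : 0 < ww T l := by unfold ww; positivity

theorem ww_succ (l : ℕ) : ww T (l + 1) = ww T l / (2 * 2 ^ l * 2 ^ l) := by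
  unfold ww
  rw [show (l + 1) * (l + 1) = l * l + (1 + l + l) by ring, pow_add, pow_add, pow_add]
  field_simp

theorem ww_half (hT : 0 < T) (l : ℕ) : 2 * ww T (l + 1) ≤ ww T l := by
  rw [ww_succ]
  have h1 := ww_pos hT l
  have h2 : (1 : ℝ) ≤ 2 ^ l := one_le_pow₀ (by norm_num)
  rw [mul_div_assoc', div_le_iff₀ (by positivity)]
  nlinarith [mul_le_mul h2 h2 zero_le_one (by positivity)]

theorem lam_nonneg (hT : 0 < T) (l : ℕ) : 0 ≤ lam T l := by
  have := ww_pos hT l
  unfold lam
  positivity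

theorem lam_mono (hT : 0 < T) : Monotone (lam T) := by
  refine monotone_nat_of_le_succ fun l => ?_
  unfold lam
  have h1 := ww_pos hT (l + 1)
  have h2 := ww_half hT l
  have h3 : (0 : ℝ) < 2 ^ l := by positivity
  refine div_le_div₀ (by positivity) ?_ h1 (by linarith)
  rw [pow_succ]
  linarith

theorem lam_mul (hT : 0 < T) (l : ℕ) : lam T l * ww T l = 2 ^ l := by
  unfold lam
  rw [div_mul_cancel₀ _ (ww_pos hT l).ne']

theorem lam_mul' (hT : 0 < T) (l : ℕ) : lam T l * (4 * ww T (l + 1)) = 2 / 2 ^ l := by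
  unfold lam
  rw [ww_succ]
  have := (ww_pos hT l).ne'
  field_simp
  ring

theorem RR_bd (hT : 0 < T) : ∀ (l : ℕ) (r : ℝ), r ∈ RR T l → 0 ≤ r ∧ r + 3 * ww T l ≤ T
  | 0, r, h => by
    simp only [RR, mem_singleton] at h
    subst h
    simp only [ww, le_refl, true_and]
    norm_num
    linarith
  | l + 1, r, h => by
    simp only [RR, mem_union, mem_image] at h
    have h1 := ww_pos hT l
    have h2 := ww_pos hT (l + 1)
    have h3 := ww_half hT l
    rcases h with ⟨s, hs, rfl⟩ | ⟨s, hs, rfl⟩ <;> have := RR_bd hT l s hs <;>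
      constructor <;> linarith [this.1, this.2]

theorem RR_bd' (hT : 0 < T) {l : ℕ} {r : ℝ} (h : r ∈ RR T l) : r + ww T (l + 1) ≤ T := by
  have h1 := ww_pos hT l
  have h3 := ww_half hT l
  have := RR_bd hT l r h
  linarith [this.2, ww_pos hT (l + 1)]

variable {Ω : Type} {W : ℝ → Ω → ℝ}

theorem aa_mem : ∀ (l : ℕ) (ω : Ω), aa T W l ω ∈ RR T l
  | 0, ω => by simp [aa, RR]
  | l + 1, ω => by
    simp only [aa, RR, mem_union, mem_image]
    split_ifs
    · exact Or.inl ⟨_, aa_mem l ω, rfl⟩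
    · exact Or.inr ⟨_, aa_mem l ω, rfl⟩

theorem aa_step (hT : 0 < T) (l : ℕ) (ω : Ω) : aa T W l ω + ww T (l + 1) ≤ aa T W (l + 1) ω ∧
    aa T W (l + 1) ω + 3 * ww T (l + 1) ≤ aa T W l ω + 3 * ww T l := by
  have h1 := ww_pos hT l
  have h2 := ww_pos hT (l + 1)
  have h3 := ww_half hT l
  simp only [aa]
  split_ifs <;> constructor <;> linarith

theorem aa_le (hT : 0 < T) {l m : ℕ} (h : l ≤ m) (ω : Ω) : aa T W l ω ≤ aa T W m ω ∧
    aa T W m ω + 3 * ww T m ≤ aa T W l ω + 3 * ww T l := by
  induction m, h using Nat.le_induction with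
  | base => exact ⟨le_rfl, le_rfl⟩
  | succ m _ ih =>
    have h1 := aa_step (W := W) hT m ω
    have h2 := ww_pos hT (m + 1)
    constructor <;> linarith [h1.1, h1.2, ih.1, ih.2]

theorem aa_lt (hT : 0 < T) {l m : ℕ} (h : l < m) (ω : Ω) :
    aa T W l ω + ww T (l + 1) ≤ aa T W m ω :=
  (aa_step hT l ω).1.trans (aa_le hT h ω).1

theorem fib {M : Type} [AddCommMonoid M] (l : ℕ) (h : ℝ → Ω → M) (ω : Ω) :
    h (aa T W l ω) ω = ∑ r ∈ RR T l, {ω | aa T W l ω = r}.indicator (h r) ω := by
  rw [sum_eq_single_of_mem _ (aa_mem (W := W) l ω)]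
  · rw [Set.indicator_of_mem (by simp)]
  · intro r _ hr
    rw [Set.indicator_of_notMem]
    exact fun h => hr h.symm

variable {mΩ : MeasurableSpace Ω} {P : Measure Ω} [IsProbabilityMeasure P]
  {F : Filtration ℝ mΩ}

theorem aa_meas (hW : IsBrownianOn P F W T) (hT : 0 < T) :
    ∀ (l : ℕ) (r : ℝ), MeasurableSet[F r] {ω | aa T W l ω = r}
  | 0, r => by
    simp only [aa]
    exact MeasurableSet.const _
  | l + 1, r => by
    have h1 : {ω | aa T W (l + 1) ω = r} = ⋃ s ∈ RR T l, ({ω | aa T W l ω = s} ∩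
        {ω | s + ww T (l + 1) + (if 0 ≤ W (s + ww T (l + 1)) ω - W s ω then 0 else ww T l)
          = r}) := by
      ext ω
      simp only [aa, Set.mem_ofPred_eq, Set.mem_iUnion, Set.mem_inter_iff, exists_prop]
      constructor
      · intro h
        exact ⟨_, aa_mem l ω, rfl, h⟩
      · rintro ⟨s, _, rfl, h⟩
        exact h
    rw [h1]
    refine Finset.measurableSet_biUnion _ fun s hs => ?_
    have h2 := ww_pos hT l
    have h3 := ww_pos hT (l + 1)
    by_cases h : s + ww T (l + 1) ≤ r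
    · refine (F.mono (by linarith) _ (aa_meas hW hT l s)).inter ?_
      have h4 := hW.inc_meas_le (RR_bd hT l s hs).1 (by linarith) (RR_bd' hT hs) h
      refine measurableSet_eq_fun (measurable_const.add
        (Measurable.ite (measurableSet_le measurable_const h4) measurable_const
          measurable_const)) measurable_const
    · convert @MeasurableSet.empty Ω (F r)
      ext ω
      simp only [Set.mem_inter_iff, Set.mem_ofPred_eq, Set.mem_empty_iff_false, iff_false, not_and]
      intro _ h5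
      split_ifs at h5 <;> linarith

theorem min_meas (hW : IsBrownianOn P F W T) (hT : 0 < T) (l : ℕ) (i : ℝ) :
    Measurable[F i] (fun ω => min (aa T W l ω) i) := by
  have h1 : (fun ω => min (aa T W l ω) i) = fun ω => i + ∑ r ∈ RR T l,
      {ω | aa T W l ω = r}.indicator (fun _ => min r i - i) ω := by
    funext ω
    rw [← fib l (fun r _ => min r i - i) ω]
    ring
  rw [h1]
  refine measurable_const.add (Finset.measurable_fun_sum _ fun r _ => ?_)
  rcases le_total r i with h | h
  · exact measurable_const.indicator (F.mono h _ (aa_meas hW hT l r))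
  · simp only [min_eq_right h, sub_self, Set.indicator_zero]
    exact measurable_const

theorem aa_measurable (hW : IsBrownianOn P F W T) (hT : 0 < T) (l : ℕ) :
    Measurable (aa T W l) := by
  have h1 := (min_meas hW hT l T).mono (F.le T) le_rfl
  have h2 : (fun ω => min (aa T W l ω) T) = aa T W l := by
    funext ω
    have := RR_bd' hT (aa_mem (W := W) l ω)
    exact min_eq_left (by linarith [ww_pos hT (l + 1)])
  rwa [h2] at h1

/-- The normalised increments. -/
noncomputable def zz (T : ℝ) (W : ℝ → Ω → ℝ) (l : ℕ) (ω : Ω) : ℝ :=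
  (W (aa T W l ω + ww T (l + 1)) ω - W (aa T W l ω) ω) / Real.sqrt (ww T (l + 1))

theorem zz_meas (hW : IsBrownianOn P F W T) (hT : 0 < T) {l m : ℕ} (h : l < m) {f : ℝ → ℝ}
    (hf : Measurable f) (r : ℝ) :
    Measurable[F r] ({ω | aa T W m ω = r}.indicator (fun ω => f (zz T W l ω))) := by
  have h1 : {ω | aa T W m ω = r}.indicator (fun ω => f (zz T W l ω)) = fun ω =>
      ∑ s ∈ RR T l, {ω | aa T W l ω = s}.indicator ({ω | aa T W m ω = r}.indicator
        (fun ω => f ((W (s + ww T (l + 1)) ω - W s ω) / Real.sqrt (ww T (l + 1))))) ω := by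
    funext ω
    rw [← fib l (fun s => {ω | aa T W m ω = r}.indicator
        (fun ω => f ((W (s + ww T (l + 1)) ω - W s ω) / Real.sqrt (ww T (l + 1))))) ω]
    by_cases hω : ω ∈ {ω | aa T W m ω = r}
    · rw [Set.indicator_of_mem hω, Set.indicator_of_mem hω]
      rfl
    · rw [Set.indicator_of_notMem hω, Set.indicator_of_notMem hω]
  rw [h1]
  refine Finset.measurable_fun_sum _ fun s hs => ?_
  have h3 := ww_pos hT (l + 1)
  by_cases h' : s + ww T (l + 1) ≤ r
  · have h4 := hW.inc_meas_le (RR_bd hT l s hs).1 (by linarith) (RR_bd' hT hs) h'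
    exact ((hf.comp (h4.div_const _)).indicator (aa_meas hW hT m r)).indicator
      (F.mono (by linarith) _ (aa_meas hW hT l s))
  · rw [Set.indicator_indicator]
    have : {ω | aa T W l ω = s} ∩ {ω | aa T W m ω = r} = ∅ := by
      ext ω
      simp only [Set.mem_inter_iff, Set.mem_ofPred_eq, Set.mem_empty_iff_false, iff_false, not_and]
      rintro rfl rfl
      exact h' (aa_lt hT h ω)
    rw [this, Set.indicator_empty]
    exact measurable_const

theorem key (hW : IsBrownianOn P F W T) (hT : 0 < T) (m : ℕ) {η : Ω → ℝ}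
    (hη : ∀ r, Measurable[F r] ({ω | aa T W m ω = r}.indicator η)) (hηi : Integrable η P)
    {f : ℝ → ℝ} (hf : Measurable f) (hfi : Integrable f (gaussianReal 0 1)) :
    Integrable (fun ω => η ω * f (zz T W m ω)) P ∧
      ∫ ω, η ω * f (zz T W m ω) ∂P = (∫ ω, η ω ∂P) * ∫ y, f y ∂(gaussianReal 0 1) := by
  have h3 := ww_pos hT (m + 1)
  have hs : 0 < Real.sqrt (ww T (m + 1)) := Real.sqrt_pos.mpr h3
  have h1 : ∀ ω, η ω * f (zz T W m ω) = ∑ r ∈ RR T m, {ω | aa T W m ω = r}.indicator η ω *
      f ((W (r + ww T (m + 1)) ω - W r ω) / Real.sqrt (ww T (m + 1))) := by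
    intro ω
    refine (fib m (fun r ω => η ω *
      f ((W (r + ww T (m + 1)) ω - W r ω) / Real.sqrt (ww T (m + 1)))) ω).trans ?_
    refine sum_congr rfl fun r _ => ?_
    rw [Set.indicator_mul_left]
  have hg : ∀ r : ℝ, (gaussianReal 0 (r + ww T (m + 1) - r).toNNReal).map
      (· / Real.sqrt (ww T (m + 1))) = gaussianReal 0 1 := by
    intro r
    rw [gaussianReal_map_div_const, zero_div]
    congr 1
    ext
    simp only [add_sub_cancel_left, NNReal.coe_div, Real.coe_toNNReal _ h3.le, NNReal.coe_mk,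
      Real.sq_sqrt h3.le, NNReal.coe_one]
    exact div_self h3.ne'
  have hm : Measurable (fun y : ℝ => y / Real.sqrt (ww T (m + 1))) := by fun_prop
  have hA : ∀ r, MeasurableSet {ω | aa T W m ω = r} := fun r => F.le r _ (aa_meas hW hT m r)
  have h2 : ∀ r ∈ RR T m, Integrable (fun ω => {ω | aa T W m ω = r}.indicator η ω *
      f ((W (r + ww T (m + 1)) ω - W r ω) / Real.sqrt (ww T (m + 1)))) P ∧
      ∫ ω, {ω | aa T W m ω = r}.indicator η ω *
        f ((W (r + ww T (m + 1)) ω - W r ω) / Real.sqrt (ww T (m + 1))) ∂P =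
        (∫ ω, {ω | aa T W m ω = r}.indicator η ω ∂P) * ∫ y, f y ∂(gaussianReal 0 1) := by
    intro r hr
    have h4 := hW.indep_mul (RR_bd hT m r hr).1 (by linarith) (RR_bd' hT hr) (hη r)
      (hηi.indicator (hA r)) (f := fun y => f (y / Real.sqrt (ww T (m + 1)))) (hf.comp hm) (by
        rw [← hg r, integrable_map_measure hf.aestronglyMeasurable hm.aemeasurable] at hfi
        exact hfi)
    refine ⟨h4.1, h4.2.trans ?_⟩
    rw [← hg r, integral_map hm.aemeasurable hf.aestronglyMeasurable]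
  simp_rw [h1]
  refine ⟨integrable_finsetSum _ fun r hr => (h2 r hr).1, ?_⟩
  rw [integral_finsetSum _ fun r hr => (h2 r hr).1, sum_congr rfl fun r hr => (h2 r hr).2,
    ← sum_mul, ← integral_finsetSum _ fun r _ => hηi.indicator (hA r)]
  congr 2
  funext ω
  exact (fib m (fun _ => η) ω).symm

theorem key1 (hW : IsBrownianOn P F W T) (hT : 0 < T) (m : ℕ)
    {f : ℝ → ℝ} (hf : Measurable f) (hfi : Integrable f (gaussianReal 0 1)) :
    Integrable (fun ω => f (zz T W m ω)) P ∧
      ∫ ω, f (zz T W m ω) ∂P = ∫ y, f y ∂(gaussianReal 0 1) := by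
  have h := key hW hT m (η := fun _ => 1)
    (fun r => measurable_const.indicator (aa_meas hW hT m r)) (integrable_const _) hf hfi
  simpa using h

end Pool.Agent.H810Z.SC
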