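import Mathlib
import Pool.Agent.H810Z.SC.Tree

set_option autoImplicit false
set_option linter.unusedSectionVars false

namespace Pool.Agent.H810Z.SC

open MeasureTheory ProbabilityTheory Filter Topology Finset

theorem single_sum {α X : Type} [NormedAddCommGroup X] (B : ℕ → Set α) (ψ : ℕ → α → X)
    (h0 : ∀ l p, p ∉ B l → ψ l p = 0) (hdisj : ∀ l m p, p ∈ B l → p ∈ B m → l = m) (p : α) :
    ∃ l0, ∀ l, l ≠ l0 → ψ l p = 0 := by
  by_cases h : ∃ l, p ∈ B l
  · obtain ⟨l0, h⟩ := h
    exact ⟨l0, fun l hl => h0 l p fun h' => hl (hdisj l l0 p h' h)⟩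
  · push Not at h
    exact ⟨0, fun l _ => h0 l p (h l)⟩

theorem tail {α X : Type} [MeasurableSpace α] [NormedAddCommGroup X] (ν : Measure α)
    (B : ℕ → Set α) (hB : ∀ l, MeasurableSet (B l)) (ψ : ℕ → α → X)
    (hψ : ∀ l, AEStronglyMeasurable (ψ l) ν) (c d : ℕ → ℝ)
    (hc : ∀ l, ∀ᵐ p ∂ν, ‖ψ l p‖ ≤ c l) (h0 : ∀ l p, p ∉ B l → ψ l p = 0)
    (hdisj : ∀ l m p, p ∈ B l → p ∈ B m → l = m) (hν : ∀ l, ν (B l) ≤ ENNReal.ofReal (d l))
    (hd : ∀ l, 0 ≤ d l) (hs : Summable fun l => c l ^ 2 * d l) :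
    MemLp (fun p => ∑' l, ψ l p) 2 ν ∧ Tendsto (fun L =>
      eLpNorm ((fun p => ∑' l, ψ l p) - ∑ l ∈ range L, ψ l) 2 ν) atTop (𝓝 0) := by
  have hsum : ∀ p, HasSum (fun l => ψ l p) (∑' l, ψ l p) := by
    intro p
    obtain ⟨l0, h⟩ := single_sum B ψ h0 hdisj p
    exact (hasSum_single l0 h).summable.hasSum
  set u : ℕ → ENNReal := fun l => ENNReal.ofReal (c l ^ 2 * d l) with hu
  have hfin : ∑' l, u l ≠ ⊤ := by
    rw [hu, ← ENNReal.ofReal_tsum_of_nonneg (fun l => by have := hd l; positivity) hs]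
    exact ENNReal.ofReal_ne_top
  have hb : ∀ L, eLpNorm ((fun p => ∑' l, ψ l p) - ∑ l ∈ range L, ψ l) 2 ν ≤
      (∑' k, u (k + L)) ^ (1 / 2 : ℝ) := by
    intro L
    rw [eLpNorm_eq_lintegral_rpow_enorm_toReal (by norm_num) (by simp)]
    simp only [ENNReal.toReal_ofNat]
    refine ENNReal.rpow_le_rpow ?_ (by norm_num)
    calc _ ≤ ∫⁻ p, ∑' k, (B (k + L)).indicator (fun _ => ENNReal.ofReal (c (k + L) ^ 2)) p ∂ν := by
          refine lintegral_mono_ae ?_
          filter_upwards [ae_all_iff.mpr hc] with p hp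
          obtain ⟨l0, h⟩ := single_sum B ψ h0 hdisj p
          rw [Pi.sub_apply, Finset.sum_apply, tsum_eq_single l0 h]
          by_cases hl : l0 < L
          · rw [sum_eq_single_of_mem l0 (mem_range.mpr hl) fun l _ hl => h l hl]
            simp
          · push Not at hl
            rw [sum_eq_zero fun l hl' => h l (by rw [mem_range] at hl'; omega), sub_zero]
            by_cases hB0 : p ∈ B l0
            · refine le_trans ?_ (ENNReal.le_tsum (l0 - L))
              rw [Nat.sub_add_cancel hl, Set.indicator_of_mem hB0, ← ofReal_norm,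
                ENNReal.ofReal_rpow_of_nonneg (norm_nonneg _) (by norm_num), Real.rpow_two]
              exact ENNReal.ofReal_le_ofReal (pow_le_pow_left₀ (norm_nonneg _) (hp l0) 2)
            · rw [h0 l0 p hB0]
              simp
      _ = ∑' k, ENNReal.ofReal (c (k + L) ^ 2) * ν (B (k + L)) := by
          rw [lintegral_tsum fun k => (measurable_const.indicator (hB _)).aemeasurable]
          refine tsum_congr fun k => ?_
          rw [lintegral_indicator_const (hB _)]
      _ ≤ _ := by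
          refine ENNReal.tsum_le_tsum fun k => ?_
          rw [hu]
          dsimp only
          rw [ENNReal.ofReal_mul (sq_nonneg _)]
          exact mul_le_mul_right (hν _) _
  constructor
  · refine ⟨aestronglyMeasurable_of_tendsto_ae atTop (f := fun L p => ∑ l ∈ range L, ψ l p)
      (fun L => Finset.aestronglyMeasurable_fun_sum _ fun l _ => hψ l)
      (Eventually.of_forall fun p => (hsum p).tendsto_sum_nat), ?_⟩
    have h := hb 0
    simp only [range_zero, sum_empty, sub_zero, add_zero] at h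
    exact h.trans_lt (ENNReal.rpow_lt_top_of_nonneg (by norm_num) hfin)
  · have h1 := (ENNReal.tendsto_sum_nat_add u hfin).ennrpow_const (1 / 2 : ℝ)
    rw [ENNReal.zero_rpow_of_pos (by norm_num)] at h1
    exact tendsto_of_tendsto_of_tendsto_of_le_of_le tendsto_const_nhds h1 (fun _ => zero_le) hb

variable {Ω : Type} {mΩ : MeasurableSpace Ω} {P : Measure Ω} [IsProbabilityMeasure P]
  {F : Filtration ℝ mΩ} {W : ℝ → Ω → ℝ} {T : ℝ}
  {X : Type} [NormedAddCommGroup X] [InnerProductSpace ℝ X]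

/-- The support of level `l`. -/
def BB (T : ℝ) (W : ℝ → Ω → ℝ) (l : ℕ) : Set (Ω × ℝ) :=
  {p | aa T W l p.1 < p.2 ∧ p.2 ≤ aa T W l p.1 + ww T (l + 1)}

theorem BB_meas (hW : IsBrownianOn P F W T) (hT : 0 < T) (l : ℕ) : MeasurableSet (BB T W l) := by
  have h : Measurable (fun p : Ω × ℝ => aa T W l p.1) :=
      (aa_measurable hW hT l).comp measurable_fst
  exact (measurableSet_lt h measurable_snd).inter (measurableSet_le measurable_snd (h.add_const _))

theorem BB_disj (hT : 0 < T) (l m : ℕ) (p : Ω × ℝ) (h1 : p ∈ BB T W l) (h2 : p ∈ BB T W m) :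
    l = m := by
  by_contra h
  rcases lt_or_gt_of_ne h with h | h
  · linarith [aa_lt (W := W) hT h p.1, h1.2, h2.1]
  · linarith [aa_lt (W := W) hT h p.1, h1.1, h2.2]

theorem BB_measure (hW : IsBrownianOn P F W T) (hT : 0 < T) (l : ℕ) (t : ℝ) :
    P.prod (volume.restrict (Set.Ioc 0 t)) (BB T W l) ≤ ENNReal.ofReal (ww T (l + 1)) := by
  rw [Measure.prod_apply (BB_meas hW hT l)]
  calc _ ≤ ∫⁻ _, ENNReal.ofReal (ww T (l + 1)) ∂P := by
        refine lintegral_mono fun ω => ?_
        refine (Measure.restrict_le_self _).trans (le_of_eq ?_)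
        have : Prod.mk ω ⁻¹' BB T W l = Set.Ioc (aa T W l ω) (aa T W l ω + ww T (l + 1)) := rfl
        rw [this, Real.volume_Ioc, add_sub_cancel_left]
    _ = _ := by simp

/-- The level `l` part of the integrand. -/
noncomputable def gl (T : ℝ) (W : ℝ → Ω → ℝ) (y : ℕ → X) (l : ℕ) (s : ℝ) (ω : Ω) : X :=
  (BB T W l).indicator (fun p => Real.exp (-(lam T l * (p.2 - aa T W l p.1))) • y l) (ω, s)

/-- The integrand. -/
noncomputable def gg (T : ℝ) (W : ℝ → Ω → ℝ) (y : ℕ → X) (s : ℝ) (ω : Ω) : X :=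
  ∑' l, gl T W y l s ω

theorem gl_zero (y : ℕ → X) (l : ℕ) (p : Ω × ℝ) (h : p ∉ BB T W l) : gl T W y l p.2 p.1 = 0 :=
  Set.indicator_of_notMem h _

theorem gl_hasSum (hT : 0 < T) (y : ℕ → X) (s : ℝ) (ω : Ω) :
    HasSum (fun l => gl T W y l s ω) (gg T W y s ω) := by
  obtain ⟨l0, h⟩ := single_sum (BB T W) (fun l p => gl T W y l p.2 p.1) (gl_zero y)
    (BB_disj hT) (ω, s)
  exact (hasSum_single l0 h).summable.hasSum

theorem gl_prog (hW : IsBrownianOn P F W T) (hT : 0 < T) (y : ℕ → X) (l : ℕ) :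
    IsStronglyProgressive F (gl T W y l) := by
  intro i
  have h1 : (fun p : Set.Iic i × Ω => gl T W y l p.1 p.2) = fun p : Set.Iic i × Ω =>
      ({p : Set.Iic i × Ω | min (aa T W l p.2) i < p.1 ∧
        p.1 ≤ min (aa T W l p.2) i + ww T (l + 1)}.indicator
        (fun p => Real.exp (-(lam T l * (p.1 - min (aa T W l p.2) i)))) p) • y l := by
    funext p
    have hp : (p.1 : ℝ) ≤ i := p.1.2
    unfold gl BB
    rcases le_total (aa T W l p.2) i with h | h
    · simp only [Set.indicator_apply, Set.mem_ofPred_eq, min_eq_left h]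
      split_ifs <;> simp
    · simp only [Set.indicator_apply, Set.mem_ofPred_eq, min_eq_right h]
      rw [if_neg fun h' => by linarith [h'.1], if_neg fun h' => by linarith [h'.1], zero_smul]
  rw [h1]
  let _ : MeasurableSpace Ω := F i
  have h2 : Measurable (fun p : Set.Iic i × Ω => min (aa T W l p.2) i) :=
    (min_meas hW hT l i).comp measurable_snd
  have h3 : Measurable (fun p : Set.Iic i × Ω => (p.1 : ℝ)) :=
    measurable_subtype_coe.comp measurable_fst
  refine StronglyMeasurable.smul_const (Measurable.stronglyMeasurable ?_) _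
  refine Measurable.indicator ?_ ((measurableSet_lt h2 h3).inter
    (measurableSet_le h3 (h2.add_const _)))
  exact Real.measurable_exp.comp ((h3.sub h2).const_mul _).neg

theorem gg_prog (hW : IsBrownianOn P F W T) (hT : 0 < T) (y : ℕ → X) :
    IsStronglyProgressive F (gg T W y) := by
  refine isStronglyProgressive_of_tendsto (U := fun L s ω => ∑ l ∈ range L, gl T W y l s ω)
    (fun L => IsStronglyProgressive.finsetSum fun l _ => gl_prog hW hT y l) ?_
  rw [tendsto_pi_nhds]
  intro s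
  rw [tendsto_pi_nhds]
  intro ω
  exact (gl_hasSum hT y s ω).tendsto_sum_nat

theorem exp_le (hT : 0 < T) (l : ℕ) {u : ℝ} (hu : 0 ≤ u) : Real.exp (-(lam T l * u)) ≤ 1 := by
  rw [Real.exp_le_one_iff, neg_nonpos]
  exact mul_nonneg (lam_nonneg hT l) hu

theorem gg_memLp (hW : IsBrownianOn P F W T) (hT : 0 < T) (y : ℕ → X)
    (hy : Summable fun l => ‖y l‖ ^ 2 * ww T (l + 1)) :
    MemLp (fun p : Ω × ℝ => gg T W y p.2 p.1) 2 (P.prod (volume.restrict (Set.Ioc 0 T))) := by
  refine (tail _ (BB T W) (BB_meas hW hT) (fun l p => gl T W y l p.2 p.1) (fun l => ?_)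
    (fun l => ‖y l‖) (fun l => ww T (l + 1)) (fun l => Eventually.of_forall fun p => ?_)
    (gl_zero y) (BB_disj hT) (fun l => BB_measure hW hT l T) (fun l => (ww_pos hT _).le) hy).1
  · refine AEStronglyMeasurable.indicator ?_ (BB_meas hW hT l)
    have h : Measurable (fun p : Ω × ℝ => aa T W l p.1) :=
      (aa_measurable hW hT l).comp measurable_fst
    exact ((Real.measurable_exp.comp ((measurable_snd.sub h).const_mul
      _).neg).stronglyMeasurable.smul_const _).aestronglyMeasurable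
  · by_cases h : p ∈ BB T W l
    · unfold gl
      rw [Set.indicator_of_mem h, norm_smul, Real.norm_eq_abs, abs_of_pos (Real.exp_pos _)]
      exact mul_le_of_le_one_left (norm_nonneg _) (exp_le hT l (sub_nonneg.mpr h.1.le))
    · rw [gl_zero y l p h, norm_zero]
      exact norm_nonneg _

/-- The step terms. -/
noncomputable def term (hW : IsBrownianOn P F W T) (hT : 0 < T) (y : ℕ → X) {t : ℝ} (ht : 0 ≤ t)
    (l : ℕ) (r : ℝ) : StepTerm F X t :=
  if h : 0 ≤ r ∧ r ≤ t then
    { a := r, b := min (r + ww T (l + 1)) t, A := {ω | aa T W l ω = r},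
      x := Real.exp (-(lam T l * (t - r))) • y l, ha := h.1,
      hab := le_min (by linarith [ww_pos hT (l + 1)]) h.2, hb := min_le_right _ _,
      hA := aa_meas hW hT l r }
  else
    { a := 0, b := 0, A := ∅, x := 0, ha := le_rfl, hab := le_rfl, hb := ht,
      hA := @MeasurableSet.empty Ω (F 0) }

theorem term_process (hW : IsBrownianOn P F W T) (hT : 0 < T) (y : ℕ → X) {t : ℝ} (ht : 0 ≤ t)
    (l : ℕ) (p : Ω × ℝ) (hp : p.2 ≤ t) : ∑ r ∈ RR T l, (term hW hT y ht l r).process p =
      (BB T W l).indicator (fun p => Real.exp (-(lam T l * (t - aa T W l p.1))) • y l) p := by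
  rw [sum_eq_single_of_mem _ (aa_mem (W := W) l p.1)]
  · unfold term
    split_ifs with h
    · simp only [StepTerm.process, BB, Set.indicator_apply, Set.mem_prod, Set.mem_ofPred_eq,
        Set.mem_Ioc, le_min_iff, hp, and_true, true_and]
    · rw [Set.indicator_of_notMem]
      · simp [StepTerm.process]
      · intro h'
        exact h ⟨(RR_bd hT l _ (aa_mem l p.1)).1, h'.1.le.trans hp⟩
  · intro r _ hr
    unfold term
    split_ifs with h
    · exact Set.indicator_of_notMem (fun h' => hr h'.1.symm) _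
    · simp [StepTerm.process]

theorem term_integral (hW : IsBrownianOn P F W T) (hT : 0 < T) (y : ℕ → X) {t : ℝ} (ht : 0 ≤ t)
    (l : ℕ) (ω : Ω) : ∑ r ∈ RR T l, (term hW hT y ht l r).integral W ω =
      if aa T W l ω ≤ t then (W (min (aa T W l ω + ww T (l + 1)) t) ω - W (aa T W l ω) ω) •
        Real.exp (-(lam T l * (t - aa T W l ω))) • y l else 0 := by
  rw [sum_eq_single_of_mem _ (aa_mem (W := W) l ω)]
  · unfold term
    have h0 := (RR_bd hT l _ (aa_mem (W := W) l ω)).1
    by_cases h : aa T W l ω ≤ t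
    · rw [dif_pos ⟨h0, h⟩, if_pos h]
      exact Set.indicator_of_mem (by simp) _
    · rw [dif_neg fun h' => h h'.2, if_neg h]
      simp [StepTerm.integral]
  · intro r _ hr
    unfold term
    split_ifs with h
    · exact Set.indicator_of_notMem (fun h' => hr h'.symm) _
    · simp [StepTerm.integral]

/-- The approximating families. -/
noncomputable def terms (hW : IsBrownianOn P F W T) (hT : 0 < T) (y : ℕ → X) {t : ℝ} (ht : 0 ≤ t)
    (L : ℕ) (i : ↥((range L).sigma (RR T))) : StepTerm F X t :=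
  term hW hT y ht i.1.1 i.1.2

theorem sum_terms {M : Type} [AddCommMonoid M] (L : ℕ) (f : ℕ → ℝ → M) :
    ∑ i : ↥((range L).sigma (RR T)), f i.1.1 i.1.2 = ∑ l ∈ range L, ∑ r ∈ RR T l, f l r := by
  rw [Finset.sum_coe_sort ((range L).sigma (RR T)) (fun i => f i.1 i.2), Finset.sum_sigma]

theorem conv_approx (hW : IsBrownianOn P F W T) (hT : 0 < T) (y : ℕ → X)
    (hy : Summable fun l => ‖y l‖ ^ 2 * ww T (l + 1)) (S : ℝ → X →L[ℝ] X)
    (hS : ∀ l t, 0 ≤ t → S t (y l) = Real.exp (-(lam T l * t)) • y l) {t : ℝ} (ht : 0 ≤ t) :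
    MemLp (fun p : Ω × ℝ => S (t - p.2) (gg T W y p.2 p.1)) 2
      (P.prod (volume.restrict (Set.Ioc 0 t))) ∧
    Tendsto (fun L => eLpNorm ((fun p : Ω × ℝ => S (t - p.2) (gg T W y p.2 p.1)) -
      ∑ i, (terms hW hT y ht L i).process) 2 (P.prod (volume.restrict (Set.Ioc 0 t))))
      atTop (𝓝 0) := by
  have hae : ∀ᵐ p ∂(P.prod (volume.restrict (Set.Ioc 0 t))), p.2 ≤ t := by
    have h : ∀ᵐ s ∂(volume.restrict (Set.Ioc 0 t)), s ≤ t := by
      filter_upwards [ae_restrict_mem measurableSet_Ioc] with s hs using hs.2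
    exact Measure.quasiMeasurePreserving_snd.ae h
  have h1 : ∀ l (p : Ω × ℝ), p.2 ≤ t → S (t - p.2) (gl T W y l p.2 p.1) =
      (BB T W l).indicator (fun p => Real.exp (-(lam T l * (t - aa T W l p.1))) • y l) p := by
    intro l p hp
    by_cases h : p ∈ BB T W l
    · unfold gl
      rw [Set.indicator_of_mem h, Set.indicator_of_mem h, map_smul, hS l _ (sub_nonneg.mpr hp),
        smul_smul, ← Real.exp_add]
      congr 2
      ring
    · rw [gl_zero y l p h, Set.indicator_of_notMem h, map_zero]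
  have h2 : ∀ l, (fun p : Ω × ℝ => S (t - p.2) (gl T W y l p.2 p.1)) =ᵐ[P.prod
      (volume.restrict (Set.Ioc 0 t))] ∑ r ∈ RR T l, (term hW hT y ht l r).process := by
    intro l
    filter_upwards [hae] with p hp
    rw [h1 l p hp, Finset.sum_apply, term_process hW hT y ht l p hp]
  have h3 : (fun p : Ω × ℝ => S (t - p.2) (gg T W y p.2 p.1)) =
      fun p => ∑' l, S (t - p.2) (gl T W y l p.2 p.1) := by
    funext p
    exact ((S (t - p.2)).hasSum (gl_hasSum hT y p.2 p.1)).tsum_eq.symm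
  have h4 := tail (P.prod (volume.restrict (Set.Ioc 0 t))) (BB T W) (BB_meas hW hT)
    (fun l p => S (t - p.2) (gl T W y l p.2 p.1)) (fun l => ?_)
    (fun l => ‖y l‖) (fun l => ww T (l + 1)) (fun l => ?_)
    (fun l p hp => by rw [gl_zero y l p hp, map_zero]) (BB_disj hT)
    (fun l => BB_measure hW hT l t) (fun l => (ww_pos hT _).le) hy
  · rw [h3]
    refine ⟨h4.1, h4.2.congr fun L => eLpNorm_congr_ae ?_⟩
    filter_upwards [ae_all_iff.mpr h2] with p hp
    rw [Pi.sub_apply, Pi.sub_apply]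
    congr 1
    unfold terms
    rw [sum_terms L (fun l r => (term hW hT y ht l r).process), Finset.sum_apply, Finset.sum_apply]
    exact sum_congr rfl fun l _ => hp l
  · refine AEStronglyMeasurable.congr ?_ (h2 l).symm
    have h5 := process_memLp (P := P) (fun r : ↥(RR T l) => term hW hT y ht l r)
    rw [Finset.sum_coe_sort (RR T l) (fun r => (term hW hT y ht l r).process)] at h5
    exact h5.1
  · filter_upwards [hae] with p hp
    rw [h1 l p hp]
    by_cases h : p ∈ BB T W l
    · rw [Set.indicator_of_mem h, norm_smul, Real.norm_eq_abs, abs_of_pos (Real.exp_pos _)]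
      exact mul_le_of_le_one_left (norm_nonneg _)
        (exp_le hT l (sub_nonneg.mpr (h.1.le.trans hp)))
    · rw [Set.indicator_of_notMem h, norm_zero]
      exact norm_nonneg _

theorem conv_exists [CompleteSpace X] (hW : IsBrownianOn P F W T) (hT : 0 < T) (y : ℕ → X)
    (hy : Summable fun l => ‖y l‖ ^ 2 * ww T (l + 1)) (S : ℝ → X →L[ℝ] X)
    (hS : ∀ l t, 0 ≤ t → S t (y l) = Real.exp (-(lam T l * t)) • y l) :
    ∃ u, IsStochConvolution P F W T S (gg T W y) u := by
  have h : ∀ t : ℝ, ∃ ξ : Ω → X, t ∈ Set.Icc 0 T →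
      IsItoIntegral P F W t (fun p => S (t - p.2) (gg T W y p.2 p.1)) ξ := by
    intro t
    by_cases ht : t ∈ Set.Icc 0 T
    · have h1 := conv_approx hW hT y hy S hS ht.1
      obtain ⟨ξ, hξ⟩ := exists_ito hW ht.2 (terms hW hT y ht.1) h1.1 h1.2
      exact ⟨ξ, fun _ => hξ⟩
    · exact ⟨0, fun h => absurd h ht⟩
  choose u hu using h
  exact ⟨u, hu⟩

theorem conv_value (hW : IsBrownianOn P F W T) (hT : 0 < T) (y : ℕ → X)
    (hy : Summable fun l => ‖y l‖ ^ 2 * ww T (l + 1)) (S : ℝ → X →L[ℝ] X)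
    (hS : ∀ l t, 0 ≤ t → S t (y l) = Real.exp (-(lam T l * t)) • y l) {u v : ℝ → Ω → X}
    (hu : IsStochConvolution P F W T S (gg T W y) u) (hv : ∀ t ∈ Set.Icc 0 T, v t =ᵐ[P] u t)
    (R : ℕ) : ∀ᵐ ω ∂P, v (aa T W R ω) ω = ∑ l ∈ range R,
      (W (aa T W l ω + ww T (l + 1)) ω - W (aa T W l ω) ω) •
        Real.exp (-(lam T l * (aa T W R ω - aa T W l ω))) • y l := by
  have h : ∀ r ∈ RR T R, ∀ᵐ ω ∂P, aa T W R ω = r → v r ω = ∑ l ∈ range R,
      (W (aa T W l ω + ww T (l + 1)) ω - W (aa T W l ω) ω) •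
        Real.exp (-(lam T l * (r - aa T W l ω))) • y l := by
    intro r hr
    have h0 := (RR_bd hT R r hr).1
    have h1 : r ≤ T := by linarith [RR_bd' hT hr, ww_pos hT (R + 1)]
    have h2 : ∀ n ω, (∑ i, (terms hW hT y h0 n i).integral W) ω = ∑ l ∈ range n,
        if aa T W l ω ≤ r then (W (min (aa T W l ω + ww T (l + 1)) r) ω - W (aa T W l ω) ω) •
          Real.exp (-(lam T l * (r - aa T W l ω))) • y l else 0 := by
      intro n ω
      unfold terms
      rw [sum_terms n (fun l s => (term hW hT y h0 l s).integral W), Finset.sum_apply]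
      refine sum_congr rfl fun l _ => ?_
      rw [Finset.sum_apply, term_integral]
    have h3 := ito_local hW h1 (terms hW hT y h0) (hu r ⟨h0, h1⟩)
      (conv_approx hW hT y hy S hS h0).2 (F.le r _ (aa_meas hW hT R r)) R (by
        intro n hn ω hω
        rw [h2, h2]
        refine (sum_subset (range_subset_range.mpr hn) fun l _ hl => ?_).symm
        rw [mem_range, not_lt] at hl
        have h4 := (aa_le (W := W) hT hl ω).1
        rw [show aa T W R ω = r from hω] at h4
        split_ifs with h5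
        · rw [le_antisymm h5 h4, min_eq_right (by linarith [ww_pos hT (l + 1)]), sub_self,
            zero_smul]
        · rfl)
    filter_upwards [h3, hv r ⟨h0, h1⟩] with ω h4 h5 h6
    rw [h5, h4 h6, h2]
    refine sum_congr rfl fun l hl => ?_
    have h7 := aa_lt (W := W) hT (mem_range.mp hl) ω
    rw [h6] at h7
    rw [if_pos (by linarith [ww_pos hT (l + 1)]), min_eq_left h7]
  filter_upwards [(Finset.eventually_all _).mpr h] with ω hω
  exact hω _ (aa_mem R ω) rfl

end Pool.Agent.H810Z.SC
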