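import Mathlib
import Pool.Agent.H810Z.SC.Proc
import Pool.Agent.H810Z.SC.Hilbert

set_option autoImplicit false
set_option linter.unusedSectionVars false

namespace Pool.Agent.H810Z.SC

open MeasureTheory ProbabilityTheory Filter Topology Finset
open scoped RealInnerProductSpace

/-- The mean of the positive part of a standard Gaussian. -/
noncomputable def mu : ℝ := ∫ y, max y 0 ∂(gaussianReal 0 1)

theorem pos_memLp : MemLp (fun y : ℝ => max y 0) 2 (gaussianReal 0 1) := by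
  refine (memLp_id_gaussianReal' (μ := 0) (v := 1) 2 (by simp)).mono
    (by fun_prop : Measurable fun y : ℝ => max y 0).aestronglyMeasurable
    (Eventually.of_forall fun y => ?_)
  simp only [Real.norm_eq_abs, id_eq]
  rcases le_total y 0 with h | h
  · rw [max_eq_right h, abs_zero]
    exact abs_nonneg _
  · rw [max_eq_left h]

theorem mu_pos : 0 < mu := by
  unfold mu
  rw [integral_pos_iff_support_of_nonneg (fun y => le_max_right y 0)
    (pos_memLp.integrable (by norm_num)), pos_iff_ne_zero]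
  intro h
  have h1 := gaussianReal_absolutelyContinuous' 0 (v := 1) one_ne_zero h
  have h2 : Set.Ioi (0 : ℝ) ⊆ Function.support fun y : ℝ => max y 0 := by
    intro y hy
    exact (lt_max_of_lt_left hy).ne'
  have h3 := measure_mono_null h2 h1
  simp at h3

theorem cen_memLp : MemLp (fun y : ℝ => max y 0 - mu) 2 (gaussianReal 0 1) :=
  pos_memLp.sub (memLp_const _)

theorem cen_integral : ∫ y, (max y 0 - mu) ∂(gaussianReal 0 1) = 0 := by
  rw [integral_sub (pos_memLp.integrable (by norm_num)) (integrable_const _)]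
  simp [mu]

variable {Ω : Type} {mΩ : MeasurableSpace Ω} {P : Measure Ω} [IsProbabilityMeasure P]
  {F : Filtration ℝ mΩ} {W : ℝ → Ω → ℝ} {T : ℝ}
  {X : Type} [NormedAddCommGroup X] [InnerProductSpace ℝ X]

theorem Y_int (hW : IsBrownianOn P F W T) (hT : 0 < T) (l : ℕ) :
    Integrable (fun ω => max (zz T W l ω) 0 - mu) P :=
  (key1 hW hT l (f := fun y => max y 0 - mu) (by fun_prop)
    (cen_memLp.integrable (by norm_num))).1

theorem Y_sq (hW : IsBrownianOn P F W T) (hT : 0 < T) (l : ℕ) :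
    Integrable (fun ω => (max (zz T W l ω) 0 - mu) ^ 2) P ∧
    ∫ ω, (max (zz T W l ω) 0 - mu) ^ 2 ∂P = ∫ y, (max y 0 - mu) ^ 2 ∂(gaussianReal 0 1) :=
  key1 hW hT l (f := fun y => (max y 0 - mu) ^ 2) (by fun_prop) cen_memLp.integrable_sq

theorem Y_memLp (hW : IsBrownianOn P F W T) (hT : 0 < T) (l : ℕ) :
    MemLp (fun ω => max (zz T W l ω) 0 - mu) 2 P :=
  (memLp_two_iff_integrable_sq (Y_int hW hT l).1).mpr (Y_sq hW hT l).1

theorem Y_orth (hW : IsBrownianOn P F W T) (hT : 0 < T) {l m : ℕ} (h : l < m) :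
    ∫ ω, (max (zz T W l ω) 0 - mu) * (max (zz T W m ω) 0 - mu) ∂P = 0 := by
  have h1 := (key hW hT m (zz_meas hW hT h (f := fun y => max y 0 - mu) (by fun_prop))
    (Y_int hW hT l) (f := fun y => max y 0 - mu) (by fun_prop)
    (cen_memLp.integrable (by norm_num))).2
  rw [cen_integral, mul_zero] at h1
  exact h1

theorem Y_sum (hW : IsBrownianOn P F W T) (hT : 0 < T) (z : ℕ → X) (R : ℕ) :
    Integrable (fun ω => ‖∑ l ∈ range R, (max (zz T W l ω) 0 - mu) • z l‖ ^ 2) P ∧
    ∫ ω, ‖∑ l ∈ range R, (max (zz T W l ω) 0 - mu) • z l‖ ^ 2 ∂P =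
      (∑ l ∈ range R, ‖z l‖ ^ 2) * ∫ y, (max y 0 - mu) ^ 2 ∂(gaussianReal 0 1) := by
  constructor
  · have h := memLp_finsetSum (range R) fun l _ => memLp_smul_const (Y_memLp hW hT l) (z l)
    exact (memLp_two_iff_integrable_sq_norm h.1).mp h
  rw [sq_sum P (range R) (fun l ω => max (zz T W l ω) 0 - mu) (fun l _ => Y_memLp hW hT l) z,
    sum_mul]
  refine sum_congr rfl fun l hl => ?_
  rw [sum_eq_single_of_mem l hl]
  · rw [real_inner_self_eq_norm_sq, ← (Y_sq hW hT l).2]
    simp only [sq]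
  · intro m _ hm
    rcases lt_or_gt_of_ne hm with h | h
    · simp_rw [mul_comm (max (zz T W l _) 0 - mu)]
      rw [Y_orth hW hT h, mul_zero]
    · rw [Y_orth hW hT h, mul_zero]

theorem theta (hT : 0 < T) {l R : ℕ} (h : l < R) (ω : Ω) :
    |zz T W l ω * Real.exp (-(lam T l * (aa T W R ω - aa T W l ω))) - max (zz T W l ω) 0| ≤
      2 / 2 ^ l * |zz T W l ω| := by
  have hs : 0 < Real.sqrt (ww T (l + 1)) := Real.sqrt_pos.mpr (ww_pos hT _)
  have h1 := aa_le (W := W) hT (Nat.succ_le_of_lt h) ω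
  have h2 := lam_nonneg hT l
  have h3 := ww_pos hT R
  have h4 := ww_pos hT (l + 1)
  have h5 := aa_lt (W := W) hT h ω
  have h6 := exp_le hT l (u := aa T W R ω - aa T W l ω) (by linarith)
  by_cases hz : 0 ≤ W (aa T W l ω + ww T (l + 1)) ω - W (aa T W l ω) ω
  · have hz' : 0 ≤ zz T W l ω := div_nonneg hz hs.le
    have h7 : aa T W (l + 1) ω = aa T W l ω + ww T (l + 1) := by
      simp only [aa, if_pos hz, add_zero]
    simp only [Nat.succ_eq_add_one, h7] at h1
    have h8 : lam T l * (aa T W R ω - aa T W l ω) ≤ 2 / 2 ^ l := by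
      rw [← lam_mul' hT l]
      exact mul_le_mul_of_nonneg_left (by linarith [h1.2]) h2
    have h9 := Real.add_one_le_exp (-(lam T l * (aa T W R ω - aa T W l ω)))
    rw [max_eq_left hz', abs_of_nonneg hz', abs_le]
    constructor <;> nlinarith [mul_nonneg hz' (sub_nonneg.mpr h6),
      (by positivity : (0 : ℝ) ≤ 2 / 2 ^ l)]
  · have hz' : zz T W l ω ≤ 0 := div_nonpos_of_nonpos_of_nonneg (not_le.mp hz).le hs.le
    have h7 : aa T W (l + 1) ω = aa T W l ω + ww T (l + 1) + ww T l := by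
      simp only [aa, if_neg hz]
    simp only [Nat.succ_eq_add_one, h7] at h1
    have h8 : 2 ^ l ≤ lam T l * (aa T W R ω - aa T W l ω) := by
      rw [← lam_mul hT l]
      exact mul_le_mul_of_nonneg_left (by linarith [h1.1]) h2
    have h9 : Real.exp (-(lam T l * (aa T W R ω - aa T W l ω))) ≤ 2 / 2 ^ l := by
      rw [Real.exp_neg, inv_eq_one_div]
      refine div_le_div₀ (by norm_num) (by norm_num) (by positivity) ?_
      linarith [Real.add_one_le_exp (lam T l * (aa T W R ω - aa T W l ω))]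
    rw [max_eq_right hz', sub_zero, abs_mul, abs_of_pos (Real.exp_pos _), mul_comm]
    exact mul_le_mul_of_nonneg_right h9 (abs_nonneg _)

theorem geo (R : ℕ) : ∑ l ∈ range R, (2 : ℝ) / 2 ^ l ≤ 4 := by
  have h : ∀ R : ℕ, ∑ l ∈ range R, (2 : ℝ) / 2 ^ l = 4 - 4 / 2 ^ R := by
    intro R
    induction R with
    | zero => simp
    | succ R ih =>
      rw [sum_range_succ, ih, pow_succ]
      field_simp
      ring
  rw [h]
  have : (0 : ℝ) ≤ 4 / 2 ^ R := by positivity
  linarith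

theorem no_version (hW : IsBrownianOn P F W T) (hT : 0 < T) (z : ℕ → X)
    (hz : Summable fun l => ‖z l‖ ^ 2) (hB : ∀ B : ℝ, ∃ R, B < ‖∑ l ∈ range R, z l‖)
    (v : ℝ → Ω → X) (hv : ∀ ω, ContinuousOn (fun t => v t ω) (Set.Icc 0 T))
    (hV : ∀ R, ∀ᵐ ω ∂P, v (aa T W R ω) ω = ∑ l ∈ range R,
      (zz T W l ω * Real.exp (-(lam T l * (aa T W R ω - aa T W l ω)))) • z l) : False := by
  set s := ∑' l, ‖z l‖ ^ 2 with hs
  set σ := ∫ y, (max y 0 - mu) ^ 2 ∂(gaussianReal 0 1) with hσ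
  set κ := ∫ y, |y| ∂(gaussianReal 0 1) with hκ
  have hs0 : 0 ≤ s := tsum_nonneg fun l => sq_nonneg _
  have hσ0 : 0 ≤ σ := integral_nonneg fun y => sq_nonneg _
  have hκ0 : 0 ≤ κ := integral_nonneg fun y => abs_nonneg _
  have hzl : ∀ l, ‖z l‖ ≤ 1 + s := by
    intro l
    have := hz.le_tsum l fun m _ => sq_nonneg _
    nlinarith [sq_nonneg (‖z l‖ - 1)]
  have habs : ∀ l, Integrable (fun ω => |zz T W l ω|) P ∧ ∫ ω, |zz T W l ω| ∂P = κ := fun l =>
    key1 hW hT l (f := fun y => |y|) (by fun_prop) (gauss_int_id 1).abs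
  set K := s * σ + 4 * ((1 + s) * κ) + 1 with hK
  have hK0 : 0 < K := by positivity
  set Q : ℕ → Ω → ℝ := fun R ω => ‖∑ l ∈ range R, (max (zz T W l ω) 0 - mu) • z l‖ ^ 2 +
    ∑ l ∈ range R, 2 / 2 ^ l * (1 + s) * |zz T W l ω| with hQ
  have hQ1 : ∀ R, P.real {ω | 2 * K ≤ Q R ω} ≤ 1 / 2 := by
    intro R
    have h1 := Y_sum hW hT z R
    have h2 : ∀ l ∈ range R, Integrable (fun ω => 2 / 2 ^ l * (1 + s) * |zz T W l ω|) P :=
      fun l _ => (habs l).1.const_mul _
    have h3 := mul_meas_ge_le_integral_of_nonneg (μ := P) (f := Q R)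
      (Eventually.of_forall fun ω => by simp only [hQ, Pi.zero_apply]; positivity)
      (h1.1.add (integrable_finsetSum _ h2)) (2 * K)
    have h4 : ∫ ω, Q R ω ∂P ≤ K := by
      simp only [hQ]
      rw [integral_add h1.1 (integrable_finsetSum _ h2), h1.2, integral_finsetSum _ h2]
      simp_rw [integral_const_mul, (habs _).2, mul_assoc]
      rw [← sum_mul]
      have h5 : ∑ l ∈ range R, ‖z l‖ ^ 2 ≤ s := hz.sum_le_tsum _ fun m _ => sq_nonneg _
      have h6 := mul_le_mul_of_nonneg_right h5 hσ0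
      have h7 := mul_le_mul_of_nonneg_right (geo R) (by positivity : 0 ≤ (1 + s) * κ)
      linarith
    nlinarith
  set E : ℕ → Set Ω := fun B => {ω | ∀ t ∈ Set.Icc 0 T, ‖v t ω‖ ≤ B} with hE
  have hE1 : Monotone E := by
    intro a b hab ω hω t ht
    exact (hω t ht).trans (Nat.cast_le.mpr hab)
  have hE2 : ⋃ B, E B = Set.univ := by
    rw [Set.eq_univ_iff_forall]
    intro ω
    obtain ⟨C, hC⟩ := isCompact_Icc.exists_bound_of_continuousOn (hv ω)
    obtain ⟨B, hB⟩ := exists_nat_ge C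
    exact Set.mem_iUnion.mpr ⟨B, fun t ht => (hC t ht).trans hB⟩
  have hE3 := tendsto_measure_iUnion_atTop (μ := P) hE1
  rw [hE2, measure_univ] at hE3
  have hE4 := (ENNReal.tendsto_toReal ENNReal.one_ne_top).comp hE3
  obtain ⟨B, hB1⟩ := (hE4.eventually (lt_mem_nhds (by norm_num : (1 / 2 : ℝ) < _))).exists
  obtain ⟨R, hR⟩ := hB ((B + 1 + 2 * K) / mu)
  rw [div_lt_iff₀ mu_pos] at hR
  have hsub : P (E B) ≤ P {ω | 2 * K ≤ Q R ω} := by
    refine measure_mono_ae ?_
    filter_upwards [hV R] with ω h1 h2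
    have h3 := RR_bd' hT (aa_mem (W := W) R ω)
    have h4 := h2 (aa T W R ω) ⟨(RR_bd hT R _ (aa_mem R ω)).1, by linarith [ww_pos hT (R + 1)]⟩
    rw [h1] at h4
    have h5 : mu • ∑ l ∈ range R, z l = ∑ l ∈ range R,
        (zz T W l ω * Real.exp (-(lam T l * (aa T W R ω - aa T W l ω)))) • z l -
        ∑ l ∈ range R, (max (zz T W l ω) 0 - mu) • z l - ∑ l ∈ range R,
        (zz T W l ω * Real.exp (-(lam T l * (aa T W R ω - aa T W l ω))) -
          max (zz T W l ω) 0) • z l := by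
      rw [smul_sum, ← sum_sub_distrib, ← sum_sub_distrib]
      refine sum_congr rfl fun l _ => ?_
      rw [← sub_smul, ← sub_smul]
      congr 1
      ring
    have h6 : ‖∑ l ∈ range R, (zz T W l ω * Real.exp (-(lam T l * (aa T W R ω - aa T W l ω))) -
        max (zz T W l ω) 0) • z l‖ ≤ ∑ l ∈ range R, 2 / 2 ^ l * (1 + s) * |zz T W l ω| := by
      refine norm_sum_le_of_le _ fun l hl => ?_
      rw [norm_smul, Real.norm_eq_abs, mul_right_comm]
      exact mul_le_mul (theta hT (mem_range.mp hl) ω) (hzl l) (norm_nonneg _) (by positivity)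
    have h7 := congrArg norm h5
    rw [norm_smul, Real.norm_eq_abs, abs_of_pos mu_pos] at h7
    have h8 := (norm_sub_le _ _).trans (add_le_add ((norm_sub_le _
      (∑ l ∈ range R, (max (zz T W l ω) 0 - mu) • z l)).trans (add_le_add h4 le_rfl)) h6)
    rw [← h7] at h8
    change 2 * K ≤ Q R ω
    simp only [hQ]
    nlinarith [sq_nonneg (‖∑ l ∈ range R, (max (zz T W l ω) 0 - mu) • z l‖ - 1)]
  have h9 := ENNReal.toReal_mono (measure_ne_top _ _) hsub
  have h10 := hQ1 R
  simp only [Function.comp_apply] at hB1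
  rw [measureReal_def] at h10
  linarith

theorem main (hW : IsBrownianOn P F W T) (hT : 0 < T) :
    ∃ (S : ℝ → XX →L[ℝ] XX) (g : ℝ → Ω → XX), IsC0Semigroup S ∧ IsStronglyProgressive F g ∧
      MemLp (fun p : Ω × ℝ => g p.2 p.1) 2 (P.prod (volume.restrict (Set.Ioc 0 T))) ∧
      (∃ u, IsStochConvolution P F W T S g u) ∧
      ∀ u, IsStochConvolution P F W T S g u → ¬ HasContinuousVersion P T u := by
  obtain ⟨S, x, β, C, h1, h2, h3, h4, h5⟩ := exists_semigroup (lam T) (lam_nonneg hT) (lam_mono hT)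
  set y : ℕ → XX := fun l => (Real.sqrt (ww T (l + 1)))⁻¹ • β l • x l with hy
  have hz : Summable fun l => ‖β l • x l‖ ^ 2 := by
    refine Summable.of_nonneg_of_le (fun l => sq_nonneg _) (fun l => ?_) (h4.mul_right (C ^ 2))
    rw [norm_smul, mul_pow, Real.norm_eq_abs, sq_abs]
    exact mul_le_mul_of_nonneg_left (pow_le_pow_left₀ (norm_nonneg _) (h3 l) 2) (sq_nonneg _)
  have hy1 : Summable fun l => ‖y l‖ ^ 2 * ww T (l + 1) := by
    refine hz.congr fun l => ?_
    have := ww_pos hT (l + 1)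
    simp only [hy]
    rw [norm_smul (Real.sqrt _)⁻¹, mul_pow, Real.norm_eq_abs, sq_abs, inv_pow, Real.sq_sqrt this.le]
    field_simp
  have hy2 : ∀ l t, 0 ≤ t → S t (y l) = Real.exp (-(lam T l * t)) • y l := by
    intro l t ht
    simp only [hy]
    rw [map_smul, map_smul, h2 l t ht, smul_comm (β l), smul_comm (Real.sqrt _)⁻¹]
  refine ⟨S, gg T W y, h1, gg_prog hW hT y, gg_memLp hW hT y hy1, conv_exists hW hT y hy1 S hy2,
    ?_⟩
  rintro u hu ⟨v, hv1, hv2⟩
  refine no_version hW hT (fun l => β l • x l) hz h5 v hv2 fun R => ?_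
  filter_upwards [conv_value hW hT y hy1 S hy2 hu hv1 R] with ω hω
  rw [hω]
  refine sum_congr rfl fun l _ => ?_
  simp only [hy]
  rw [smul_smul, smul_smul]
  congr 1
  unfold zz
  ring

end Pool.Agent.H810Z.SC
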